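import Pool.Agent.Lib.MP_d47134_co.Final

/-!
# Translation to multigraphs given by `ends : E → Sym2 V`
-/

set_option autoImplicit false

namespace Pool.Agent.Lib.MP_d47134_co

open Finset

variable {V E : Type} [Fintype V] [DecidableEq V] [Fintype E] [DecidableEq E]

lemma conv_cut {ends : E → Sym2 V} {a b : E → V} (hends : ∀ e, ends e = s(a e, b e))
    (X : Finset V) :
    Nat.card {e : E // ∃ u v, ends e = s(u, v) ∧ u ∈ (X : Set V) ∧ v ∉ (X : Set V)} =
      (cut a b univ X).card := by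
  classical
  rw [Nat.card_eq_fintype_card, Fintype.card_subtype]
  congr 1
  ext e
  simp only [mem_filter, mem_univ, true_and, mem_cut, mem_coe, hends]
  constructor
  · rintro ⟨u, v, huv, hu, hv⟩
    rw [ends_iff huv]
    tauto
  · intro h
    by_cases h2 : a e ∈ X
    · exact ⟨a e, b e, rfl, h2, fun h3 => h ⟨fun _ => h3, fun _ => h2⟩⟩
    · refine ⟨b e, a e, Sym2.eq_swap, ?_, h2⟩
      by_contra h3
      exact h ⟨fun h => absurd h h2, fun h => absurd h h3⟩

lemma conv_deg {ends : E → Sym2 V} {a b : E → V} (hends : ∀ e, ends e = s(a e, b e))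
    (hne : ∀ e, a e ≠ b e) (A : Finset E) (v : V) :
    Nat.card {e : E // e ∈ (A : Set E) ∧ v ∈ ends e} = (cut a b A {v}).card := by
  classical
  rw [Nat.card_eq_fintype_card, Fintype.card_subtype]
  congr 1
  ext e
  simp only [mem_filter, mem_univ, true_and, mem_cut, mem_coe, hends, Sym2.mem_iff,
    mem_singleton]
  have := hne e
  refine and_congr_right fun _ => ?_
  constructor
  · rintro (h | h) h3
    · exact this ((h3.1 h.symm).trans h).symm
    · exact this ((h3.2 h.symm).trans h)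
  · intro h
    by_contra h3
    push Not at h3
    exact h ⟨fun h4 => absurd h4.symm h3.1, fun h4 => absurd h4.symm h3.2⟩

lemma conv_deg' {ends : E → Sym2 V} {a b : E → V} (hends : ∀ e, ends e = s(a e, b e))
    (hne : ∀ e, a e ≠ b e) (v : V) :
    Nat.card {e : E // v ∈ ends e} = (cut a b univ {v}).card := by
  rw [← conv_deg hends hne]
  apply Nat.card_congr
  exact Equiv.subtypeEquivRight fun e => by simp

lemma conv_out {ends : E → Sym2 V} {a b : E → V} (hends : ∀ e, ends e = s(a e, b e))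
    (hne : ∀ e, a e ≠ b e) {k : ℕ}
    (h : ∃ A B : Finset E, A ∪ B = univ ∧ (∀ v, Even (cut a b A {v}).card) ∧
      (∀ v, Even (cut a b B {v}).card) ∧ k * (A.card + B.card) ≤ (k + 1) * Fintype.card E) :
    ∃ A B : Set E, A ∪ B = Set.univ ∧
      (∀ v : V, Even (Nat.card {e : E // e ∈ A ∧ v ∈ ends e})) ∧
      (∀ v : V, Even (Nat.card {e : E // e ∈ B ∧ v ∈ ends e})) ∧
      k * (A.ncard + B.ncard) ≤ (k + 1) * Nat.card E := by
  obtain ⟨A, B, hAB, hA, hB, hs⟩ := h
  refine ⟨A, B, ?_, fun v => ?_, fun v => ?_, ?_⟩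
  · rw [← Finset.coe_union, hAB, Finset.coe_univ]
  · rw [conv_deg hends hne]; exact hA v
  · rw [conv_deg hends hne]; exact hB v
  · rw [Set.ncard_coe_finset, Set.ncard_coe_finset, Nat.card_eq_fintype_card]
    exact hs

lemma exists_ends {V E : Type} (ends : E → Sym2 V) (hl : ∀ e, ¬ (ends e).IsDiag) :
    ∃ a b : E → V, (∀ e, ends e = s(a e, b e)) ∧ ∀ e, a e ≠ b e := by
  choose a ha using fun e => Sym2.exists.1 ⟨ends e, rfl⟩
  choose b hb using ha
  have hends : ∀ e, ends e = s(a e, b e) := fun e => (hb e).symm ▸ rfl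
  refine ⟨a, b, hends, fun e h => hl e ?_⟩
  rw [hends, h]
  exact Sym2.mk_isDiag_iff.2 rfl

end Pool.Agent.Lib.MP_d47134_co
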