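import Pool.Agent.Lib.MP_d47134_co.Base

/-!
# A second parity join in the complement, and the final statement for finsets
-/

set_option autoImplicit false
set_option linter.unusedSectionVars false

namespace Pool.Agent.Lib.MP_d47134_co

open Finset

variable {V E : Type} [Fintype V] [DecidableEq V] [Fintype E] [DecidableEq E]

/-- A set of edges without odd cuts is disjoint from some parity join. -/
theorem exists_join {a b : E → V} {J : Finset E}
    (hJ : ∀ X, Odd (cut a b univ X).card → ¬ cut a b univ X ⊆ J) :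
    ∃ J1 : Finset E, Disjoint J1 J ∧
      ∀ v, (((cut a b J1 {v}).card : ℕ) : ZMod 2) = ((cut a b univ {v}).card : ZMod 2) := by
  classical
  let bd : E → (V → ZMod 2) := fun e => Pi.single (a e) 1 + Pi.single (b e) 1
  have hbd : ∀ (M : Finset E) (v : V), (∑ e ∈ M, bd e) v =
      (((cut a b M {v}).card : ℕ) : ZMod 2) := by
    intro M v
    rw [par, Finset.sum_apply]
    refine sum_congr rfl fun e _ => ?_
    simp only [bd, Pi.add_apply, Pi.single_apply, mem_singleton, eq_comm]
  let t : V → ZMod 2 := ∑ e, bd e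
  have ht : t ∈ Submodule.span (ZMod 2) (bd '' {e | e ∉ J}) := by
    by_contra hcon
    obtain ⟨φ, hφ1, hφ2⟩ := Submodule.exists_le_ker_of_notMem hcon
    let X : Finset V := univ.filter fun v => φ (Pi.single v 1) = 1
    have h01 : ∀ z : ZMod 2, z = if z = 1 then 1 else 0 := by decide
    have hφe : ∀ e, φ (bd e) = (if a e ∈ X then 1 else 0) + (if b e ∈ X then 1 else 0) := by
      intro e
      simp only [bd, map_add, X, mem_filter, mem_univ, true_and]
      rw [← h01, ← h01]
    have hodd : Odd (cut a b univ X).card := by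
      rw [cast_odd, par, ← sum_congr rfl fun e _ => hφe e, ← map_sum]
      have h2 : ∀ z : ZMod 2, z ≠ 0 → z = 1 := by decide
      exact h2 _ hφ1
    apply hJ X hodd
    intro e he
    by_contra heJ
    have h3 : φ (bd e) = 0 := hφ2 (Submodule.subset_span ⟨e, heJ, rfl⟩)
    rw [hφe] at h3
    rw [mem_cut] at he
    by_cases h4 : a e ∈ X <;> by_cases h5 : b e ∈ X <;> simp [h4, h5] at h3 he
  obtain ⟨c, hc⟩ : ∃ c : E → ZMod 2, (∀ e ∈ J, c e = 0) ∧ ∑ e, c e • bd e = t := by
    have h1 : Submodule.span (ZMod 2) (bd '' {e | e ∉ J}) ≤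
        Submodule.span (ZMod 2) (Set.range fun e => if e ∈ J then 0 else bd e) := by
      apply Submodule.span_mono
      rintro _ ⟨e, he, rfl⟩
      exact ⟨e, by have he' : e ∉ J := he; simp [he']⟩
    have h2 := h1 ht
    rw [Submodule.mem_span_range_iff_exists_fun] at h2
    obtain ⟨c, hc⟩ := h2
    refine ⟨fun e => if e ∈ J then 0 else c e, fun e he => if_pos he, ?_⟩
    rw [← hc]
    refine sum_congr rfl fun e _ => ?_
    by_cases h : e ∈ J <;> simp [h]
  refine ⟨univ.filter fun e => c e = 1, ?_, ?_⟩
  · rw [Finset.disjoint_left]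
    intro e he heJ
    simp only [mem_filter, mem_univ, true_and] at he
    rw [hc.1 e heJ] at he
    exact absurd he (by decide)
  · intro v
    rw [← hbd, ← hbd]
    have h1 : ∑ e ∈ univ.filter (fun e => c e = 1), bd e = ∑ e, c e • bd e := by
      rw [sum_filter]
      refine sum_congr rfl fun e _ => ?_
      have h01 : ∀ z : ZMod 2, z ≠ 1 → z = 0 := by decide
      split_ifs with h
      · rw [h, one_smul]
      · rw [h01 _ h, zero_smul]
    rw [h1, hc.2]

/-- Two-even covers from a parity join without odd cuts. -/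
theorem cover_of_join {r : ℕ} {a b : E → V} {J : Finset E}
    (hjoin : ∀ X, (((cut a b J X).card : ℕ) : ZMod 2) = ((cut a b univ X).card : ZMod 2))
    (hJ : ∀ X, Odd (cut a b univ X).card → ¬ cut a b univ X ⊆ J)
    (hs : r * J.card ≤ Fintype.card E) :
    ∃ A B : Finset E, A ∪ B = univ ∧ (∀ v, Even (cut a b A {v}).card) ∧
      (∀ v, Even (cut a b B {v}).card) ∧ r * (A.card + B.card) ≤ (r + 1) * Fintype.card E := by
  classical
  obtain ⟨J1, hJ1, hJ1p⟩ := exists_join hJ
  have hev : ∀ n : ℕ, Even n ↔ (n : ZMod 2) = 0 := fun n => ZMod.natCast_eq_zero_iff_even.symm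
  have h11 : ∀ z : ZMod 2, z + z = 0 := by decide
  have hsplit : ∀ (M N : Finset E) (v : V), Disjoint M N →
      (((cut a b (M ∪ N) {v}).card : ℕ) : ZMod 2) =
        (cut a b M {v}).card + (cut a b N {v}).card := by
    intro M N v hMN
    rw [par, par, par, sum_union hMN]
  refine ⟨J1 ∪ J, univ \ J1, ?_, ?_, ?_, ?_⟩
  · ext e
    simp only [mem_union, mem_sdiff, mem_univ, true_and, iff_true]
    tauto
  · intro v
    rw [hev, hsplit _ _ _ hJ1, hJ1p, hjoin, h11]
  · intro v
    rw [hev]
    have h2 := hsplit J1 (univ \ J1) v disjoint_sdiff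
    rw [union_sdiff_of_subset (subset_univ J1), hJ1p] at h2
    have h3 : ∀ y z : ZMod 2, y = y + z → z = 0 := by decide
    exact h3 _ _ h2
  · have h2 : (J1 ∪ J).card = J1.card + J.card := card_union_of_disjoint hJ1
    have h3 : (univ \ J1).card + J1.card = Fintype.card E := by
      rw [card_sdiff_add_card_eq_card (subset_univ J1), card_univ]
    rw [h2]
    have h6 : J1.card + J.card + (univ \ J1).card = Fintype.card E + J.card := by omega
    rw [h6]
    nlinarith

lemma oc_succ {k : ℕ} {a b : E → V} (h : OC k a b) (hk2 : Even k) : OC (k + 1) a b := by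
  intro X hX
  have h1 := h X hX
  rcases h1.eq_or_lt with h2 | h2
  · rw [← h2] at hX
    exact absurd hk2 (Nat.not_even_iff_odd.2 hX)
  · omega

lemma weaken {k : ℕ} {a b : E → V}
    (h : ∃ A B : Finset E, A ∪ B = univ ∧ (∀ v, Even (cut a b A {v}).card) ∧
      (∀ v, Even (cut a b B {v}).card) ∧
      (k + 1) * (A.card + B.card) ≤ (k + 1 + 1) * Fintype.card E) :
    ∃ A B : Finset E, A ∪ B = univ ∧ (∀ v, Even (cut a b A {v}).card) ∧
      (∀ v, Even (cut a b B {v}).card) ∧ k * (A.card + B.card) ≤ (k + 1) * Fintype.card E := by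
  obtain ⟨A, B, h1, h2, h3, h4⟩ := h
  refine ⟨A, B, h1, h2, h3, ?_⟩
  have h5 : Fintype.card E ≤ A.card + B.card := by
    rw [← card_univ, ← h1]; exact card_union_le A B
  nlinarith

/-- Short two-even covers when the odd cuts with many odd vertices on both sides are large. -/
theorem cover_odd {r : ℕ} (hr : Odd r) (hr3 : 3 ≤ r) {a b : E → V} (h : OC r a b)
    (hT : ∀ X, Odd (cut a b univ X).card → r + 2 ≤ ov a b X → r + 2 ≤ ov a b Xᶜ →
      Fintype.card E < r * (cut a b univ X).card) :
    ∃ A B : Finset E, A ∪ B = univ ∧ (∀ v, Even (cut a b A {v}).card) ∧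
      (∀ v, Even (cut a b B {v}).card) ∧ r * (A.card + B.card) ≤ (r + 1) * Fintype.card E := by
  classical
  obtain ⟨J, hJ⟩ := exists_sol hr hr3 _ a b (fun _ => 1) h (fun _ => zero_le_one)
    (Nat.lt_succ_self _)
  have h5 : r * J.card ≤ Fintype.card E := by
    have h4 : (r : ℝ) * J.card ≤ Fintype.card E := by
      have := hJ.wt
      simpa using this
    exact_mod_cast h4
  refine cover_of_join hJ.join (fun X hX hc => ?_) h5
  obtain ⟨h1, h2⟩ := hJ.nocut X hX hc
  have h3 := hT X hX h1 h2
  have h4 := Nat.mul_le_mul_left r (card_le_card hc)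
  omega

/-- The same for every `k ≥ 3`. -/
theorem cover {k : ℕ} (hk : 3 ≤ k) {a b : E → V} (h : OC k a b)
    (hT : ∀ X, Odd (cut a b univ X).card → k + 2 ≤ ov a b X → k + 2 ≤ ov a b Xᶜ →
      Fintype.card E < k * (cut a b univ X).card) :
    ∃ A B : Finset E, A ∪ B = univ ∧ (∀ v, Even (cut a b A {v}).card) ∧
      (∀ v, Even (cut a b B {v}).card) ∧ k * (A.card + B.card) ≤ (k + 1) * Fintype.card E := by
  rcases Nat.even_or_odd k with hk2 | hk2
  · refine weaken (cover_odd hk2.add_one (by omega) (oc_succ h hk2) fun X hX h1 h2 => ?_)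
    have := hT X hX (by omega) (by omega)
    nlinarith
  · exact cover_odd hk2 hk h hT

/-- Regular graphs with good expansion of odd sets. -/
theorem cover_regular {k : ℕ} (hk : 3 ≤ k) {a b : E → V} (h : OC k a b)
    (hd : ∀ v, (cut a b univ {v}).card = k)
    (hX : ∀ X : Finset V, Odd X.card → k + 2 ≤ X.card → 2 * X.card ≤ Fintype.card V →
      X.card < (cut a b univ X).card) :
    ∃ A B : Finset E, A ∪ B = univ ∧ (∀ v, Even (cut a b A {v}).card) ∧
      (∀ v, Even (cut a b B {v}).card) ∧ k * (A.card + B.card) ≤ (k + 1) * Fintype.card E := by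
  classical
  rcases Nat.even_or_odd k with hk2 | hk2
  · refine ⟨univ, ∅, by simp, fun v => by rw [hd]; exact hk2, fun v => ?_, ?_⟩
    · have : cut a b ∅ {v} = ∅ := by
        apply eq_empty_of_forall_notMem
        intro e he
        exact absurd (mem_cut.1 he).1 (notMem_empty _)
      rw [this]; simp
    · rw [card_univ, card_empty]
      nlinarith
  · obtain ⟨J, hJ, hJ1⟩ := base_case hk2 hk h (fun v => Or.inr (hd v)) (fun _ => 1)
      (fun _ => zero_le_one)
    have h5 : k * J.card ≤ Fintype.card E := by
      have h4 : (k : ℝ) * J.card ≤ Fintype.card E := by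
        have := hJ.wt
        simpa using this
      exact_mod_cast h4
    have hov : ∀ X : Finset V, ov a b X = X.card := by
      intro X
      unfold ov
      rw [filter_true_of_mem]
      intro v _
      rw [hd]; exact hk2
    have hpar : ∀ X : Finset V, Odd (cut a b univ X).card → Odd X.card := by
      intro X h1
      rw [cast_odd] at h1 ⊢
      rw [parity, sum_congr rfl fun v _ => by rw [hd v], sum_const, nsmul_eq_mul,
        cast_odd.1 hk2, mul_one] at h1
      exact h1
    have hmain : ∀ X : Finset V, Odd (cut a b univ X).card → cut a b univ X ⊆ J →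
        2 * X.card ≤ Fintype.card V → False := by
      intro X h1 h2 h3
      have h4 := (hJ.nocut X h1 h2).1
      rw [hov] at h4
      have h6 := hX X (hpar X h1) h4 h3
      have h7 := card_cut_le a b J X
      have h8 : ∑ v ∈ X, (cut a b J {v}).card ≤ X.card := by
        rw [card_eq_sum_ones]
        exact sum_le_sum fun v _ => hJ1 v
      have h9 : cut a b univ X ⊆ cut a b J X := by
        intro e he
        exact mem_cut.2 ⟨h2 he, (mem_cut.1 he).2⟩
      have h10 := card_le_card h9
      omega
    refine cover_of_join hJ.join (fun X h1 h2 => ?_) h5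
    rcases le_total (2 * X.card) (Fintype.card V) with h3 | h3
    · exact hmain X h1 h2 h3
    · refine hmain Xᶜ (by rw [cut_compl]; exact h1) (by rw [cut_compl]; exact h2) ?_
      have := card_compl_add_card X
      omega

end Pool.Agent.Lib.MP_d47134_co
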