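import Pool.Agent.Lib.MP_d47134_co.Split

/-!
# The regular case
-/

set_option autoImplicit false
set_option linter.unusedSectionVars false

namespace Pool.Agent.Lib.MP_d47134_co

open Finset

variable {V E : Type} [Fintype V] [DecidableEq V] [Fintype E] [DecidableEq E]

lemma card_cut_le (a b : E → V) (M : Finset E) (X : Finset V) :
    (cut a b M X).card ≤ ∑ v ∈ X, (cut a b M {v}).card := by
  classical
  have h1 : cut a b M X ⊆ X.biUnion fun v => cut a b M {v} := by
    intro e he
    rw [mem_cut] at he
    rw [mem_biUnion]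
    by_cases h1 : a e ∈ X
    · refine ⟨a e, h1, mem_cut.2 ⟨he.1, ?_⟩⟩
      simp only [mem_singleton, true_iff]
      intro h2
      exact he.2 ⟨fun _ => by rw [h2]; exact h1, fun _ => h1⟩
    · have h2 : b e ∈ X := by
        by_contra h2; exact he.2 ⟨fun h => absurd h h1, fun h => absurd h h2⟩
      refine ⟨b e, h2, mem_cut.2 ⟨he.1, ?_⟩⟩
      simp only [mem_singleton, iff_true]
      intro h3
      exact h1 (by rw [h3]; exact h2)
  exact (card_le_card h1).trans card_biUnion_le

theorem base_case {r : ℕ} (hr : Odd r) (hr3 : 3 ≤ r) {a b : E → V} (h : OC r a b)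
    (hd : ∀ v, (cut a b univ {v}).card = 0 ∨ (cut a b univ {v}).card = r)
    (w : E → ℝ) (hw : ∀ e, 0 ≤ w e) :
    ∃ J, Sol r a b w J ∧ ∀ v, (cut a b J {v}).card ≤ 1 := by
  classical
  have hr0 : (0 : ℝ) < r := by
    have : 0 < r := by omega
    exact_mod_cast this
  have hnl : ∀ e, a e ≠ b e → (cut a b univ {a e}).card = r ∧ (cut a b univ {b e}).card = r := by
    intro e he
    constructor
    · refine (hd (a e)).resolve_left fun h1 => ?_
      rw [card_eq_zero] at h1
      have : e ∈ cut a b univ {a e} := mem_cut.2 ⟨mem_univ _, by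
        simp only [mem_singleton, true_iff]; exact fun h => he h.symm⟩
      rw [h1] at this
      exact notMem_empty _ this
    · refine (hd (b e)).resolve_left fun h1 => ?_
      rw [card_eq_zero] at h1
      have : e ∈ cut a b univ {b e} := mem_cut.2 ⟨mem_univ _, by
        simp only [mem_singleton, iff_true]; exact he⟩
      rw [h1] at this
      exact notMem_empty _ this
  by_cases hne : ∃ v, (cut a b univ {v}).card = r
  swap
  · push Not at hne
    have hall : ∀ e, a e = b e := fun e => by
      by_contra h1; exact hne _ (hnl e h1).1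
    have hcut : ∀ (M : Finset E) (X : Finset V), cut a b M X = ∅ := by
      intro M X
      apply eq_empty_of_forall_notMem
      intro e he
      rw [mem_cut, hall e] at he
      exact he.2 Iff.rfl
    refine ⟨∅, ⟨fun e he => absurd he (notMem_empty _), fun X => by rw [hcut, hcut],
      fun X hX => ?_, ?_⟩, fun v => by rw [hcut]; simp⟩
    · rw [hcut] at hX; simp at hX
    · simp only [sum_empty, mul_zero]
      exact sum_nonneg fun e _ => hw e
  obtain ⟨v0, hv0⟩ := hne
  let U := {v : V // (cut a b univ {v}).card = r}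
  let pr : V → U := fun v => if h1 : (cut a b univ {v}).card = r then ⟨v, h1⟩ else ⟨v0, hv0⟩
  have hpr : ∀ v, (cut a b univ {v}).card = r → (pr v).1 = v := by
    intro v hv
    simp only [pr]
    rw [dif_pos hv]
  let x : E → ℝ := fun e => if a e = b e then 0 else 1
  have hcut : ∀ (M : Finset E) (X : Finset U), cut (pr ∘ a) (pr ∘ b) M X =
      cut a b M (X.map (Function.Embedding.subtype _)) := by
    intro M X
    ext e
    rw [mem_cut, mem_cut]
    by_cases he : a e = b e
    · simp only [Function.comp_apply, he, not_true, and_false]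
    · have h1 := hnl e he
      have h2 : ∀ v, (cut a b univ {v}).card = r →
          (pr v ∈ X ↔ v ∈ X.map (Function.Embedding.subtype _)) := by
        intro v hv
        simp only [mem_map, Function.Embedding.subtype_apply, Subtype.exists, exists_and_right,
          exists_eq_right]
        constructor
        · intro h3
          refine ⟨hv, ?_⟩
          have : pr v = ⟨v, hv⟩ := Subtype.ext (hpr v hv)
          rwa [this] at h3
        · rintro ⟨_, h3⟩
          have : pr v = ⟨v, hv⟩ := Subtype.ext (hpr v hv)
          rwa [this]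
      rw [Function.comp_apply, Function.comp_apply, h2 _ h1.1, h2 _ h1.2]
  have hxsum : ∀ X : Finset V, ∑ e ∈ cut a b univ X, x e = (cut a b univ X).card := by
    intro X
    rw [card_eq_sum_ones]
    push_cast
    refine sum_congr rfl fun e he => ?_
    simp only [x]
    rw [if_neg]
    intro h1
    rw [mem_cut, h1] at he
    exact he.2 Iff.rfl
  have hr1 : ((r : ℕ) : ZMod 2) = 1 := cast_odd.1 hr
  have hgood : Good (pr ∘ a) (pr ∘ b) x r := by
    refine ⟨hr0, fun e => ?_, fun e he => ?_, fun v => ?_, fun X hX => ?_⟩
    · simp only [x]; split_ifs <;> norm_num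
    · simp only [x]
      rw [if_pos]
      by_contra h1
      have h2 := hnl e h1
      have h3 : (pr (a e)).1 = (pr (b e)).1 := congrArg Subtype.val he
      rw [hpr _ h2.1, hpr _ h2.2] at h3
      exact h1 h3
    · rw [hcut, hxsum, map_singleton, Function.Embedding.subtype_apply, v.2]
    · rw [hcut, hxsum]
      have h1 : Odd (cut a b univ (X.map (Function.Embedding.subtype _))).card := by
        rw [cast_odd, parity, sum_map]
        rw [sum_congr rfl fun v _ => by rw [Function.Embedding.subtype_apply, v.2, hr1]]
        rw [sum_const, nsmul_eq_mul, mul_one]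
        exact cast_odd.1 hX
      exact_mod_cast h _ h1
  -- tight sets
  set Z := univ.filter fun X : Finset V => (cut a b univ X).card = r with hZdef
  let cnt : E → ℕ := fun e => (Z.filter fun X => e ∈ cut a b univ X).card
  have hcnt : ∀ M : Finset E, ∑ e ∈ M, cnt e = ∑ X ∈ Z, (cut a b M X).card := by
    intro M
    have h1 : ∀ e ∈ M, cnt e = ∑ X ∈ Z, if e ∈ cut a b univ X then 1 else 0 := by
      intro e _
      simp only [cnt]
      rw [card_filter]
    rw [sum_congr rfl h1, sum_comm]
    refine sum_congr rfl fun X _ => ?_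
    have h2 : cut a b M X = M.filter fun e => e ∈ cut a b univ X := by
      ext e; simp [mem_cut]
    rw [h2, card_filter]
  set N : ℝ := ∑ e, w e + 1 with hN
  have hwn : 0 ≤ ∑ e, w e := sum_nonneg fun e _ => hw e
  obtain ⟨M, hM, hMw⟩ := edmonds hgood fun e => w e + N * cnt e
  have hM1 : ∀ v, (cut a b univ {v}).card = r → (cut a b M {v}).card = 1 := by
    intro v hv
    have h1 := hM.2 ⟨v, hv⟩
    rw [hcut, map_singleton] at h1
    exact h1
  have hM0 : ∀ v, (cut a b univ {v}).card = 0 → (cut a b M {v}).card = 0 := by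
    intro v hv
    have h1 : cut a b M {v} ⊆ cut a b univ {v} := by
      intro e he
      rw [mem_cut] at he ⊢
      exact ⟨mem_univ _, he.2⟩
    have := card_le_card h1
    omega
  have hjoin : ∀ X, (((cut a b M X).card : ℕ) : ZMod 2) = ((cut a b univ X).card : ZMod 2) := by
    intro X
    rw [parity, parity]
    refine sum_congr rfl fun v _ => ?_
    rcases hd v with h1 | h1
    · rw [hM0 v h1, h1]
    · rw [hM1 v h1, h1, hr1]; simp
  have hle : ∀ X, cut a b M X ⊆ cut a b univ X := by
    intro X e he
    rw [mem_cut] at he ⊢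
    exact ⟨mem_univ _, he.2⟩
  have hZ1 : ∀ X ∈ Z, 1 ≤ (cut a b M X).card := by
    intro X hX
    simp only [hZdef, mem_filter, mem_univ, true_and] at hX
    have h1 : Odd (cut a b M X).card := by
      rw [cast_odd, hjoin, hX, hr1]
    obtain ⟨k, hk⟩ := h1
    omega
  have hS1 : ∑ e, (w e + N * cnt e) * x e ≤ ∑ e, w e + N * (Z.card * r) := by
    have h1 : ∑ e, (w e + N * cnt e) * x e ≤ ∑ e, (w e + N * cnt e) := by
      refine sum_le_sum fun e _ => ?_
      have h2 : 0 ≤ w e + N * cnt e := by
        have := hw e
        positivity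
      simp only [x]
      split_ifs <;> linarith
    refine h1.trans ?_
    rw [sum_add_distrib, ← mul_sum]
    have h2 := hcnt univ
    have h3 : ∑ X ∈ Z, (cut a b univ X).card = Z.card * r := by
      rw [sum_congr rfl fun X hX => by
        simp only [hZdef, mem_filter, mem_univ, true_and] at hX
        exact hX]
      simp
    rw [h3] at h2
    have h4 : (∑ e, (cnt e : ℝ)) = Z.card * r := by exact_mod_cast h2
    rw [h4]
  have hS2 : ∑ e ∈ M, (w e + N * cnt e) =
      ∑ e ∈ M, w e + N * ∑ X ∈ Z, ((cut a b M X).card : ℝ) := by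
    rw [sum_add_distrib, ← mul_sum]
    congr 2
    exact_mod_cast hcnt M
  rw [hS2] at hMw
  have hwM : 0 ≤ ∑ e ∈ M, w e := sum_nonneg fun e _ => hw e
  have hone : ∀ X ∈ Z, (cut a b M X).card = 1 := by
    by_contra hcon
    push Not at hcon
    obtain ⟨X0, hX0, hX01⟩ := hcon
    have h1 : Z.card + 1 ≤ ∑ X ∈ Z, (cut a b M X).card := by
      have h2 := hZ1 X0 hX0
      have h3 : ∑ X ∈ Z, 1 < ∑ X ∈ Z, (cut a b M X).card :=
        sum_lt_sum (fun X hX => hZ1 X hX) ⟨X0, hX0, by omega⟩
      simpa using h3
    have h2 : (Z.card : ℝ) + 1 ≤ ∑ X ∈ Z, ((cut a b M X).card : ℝ) := by exact_mod_cast h1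
    have h3 : N * (Z.card + 1) ≤ N * ∑ X ∈ Z, ((cut a b M X).card : ℝ) :=
      mul_le_mul_of_nonneg_left h2 (by linarith)
    have h4 : (r : ℝ) * (N * (Z.card + 1)) ≤ ∑ e, w e + N * (Z.card * r) := by
      refine le_trans ?_ (hMw.trans hS1)
      apply mul_le_mul_of_nonneg_left _ hr0.le
      linarith
    have h5 : (1 : ℝ) ≤ r := by exact_mod_cast (by omega : 1 ≤ r)
    have h6 : N ≤ r * N := by nlinarith
    have h7 : (r : ℝ) * N ≤ ∑ e, w e := by nlinarith
    linarith
  have hsum1 : ∑ X ∈ Z, ((cut a b M X).card : ℝ) = Z.card := by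
    rw [sum_congr rfl fun X hX => by rw [hone X hX]]
    simp
  refine ⟨M, ⟨?_, hjoin, ?_, ?_⟩, fun v => ?_⟩
  · intro e he h1
    have := hM.1 e he
    simp only [x] at this
    rw [if_pos h1] at this
    exact lt_irrefl _ this
  · intro X hX hXM
    have h1 : cut a b univ X = cut a b M X := by
      apply subset_antisymm _ (hle X)
      intro e he
      exact mem_cut.2 ⟨hXM he, (mem_cut.1 he).2⟩
    have h2 := h X hX
    have h3 : (cut a b univ X).card ≠ r := by
      intro h4
      have h5 := hone X (by simp only [hZdef, mem_filter, mem_univ, true_and]; exact h4)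
      rw [← h1] at h5
      omega
    have h4 : r + 2 ≤ (cut a b M X).card := by
      rw [← h1]
      obtain ⟨i, hi⟩ := hX
      obtain ⟨j, hj⟩ := hr
      omega
    have hdeg : ∀ Y : Finset V, ∑ v ∈ Y, (cut a b M {v}).card = ov a b Y := by
      intro Y
      rw [ov, card_filter]
      refine sum_congr rfl fun v _ => ?_
      rcases hd v with h5 | h5
      · rw [hM0 v h5, h5]; simp
      · rw [hM1 v h5, h5, if_pos hr]
    have h5 := card_cut_le a b M X
    have h6 := card_cut_le a b M Xᶜ
    rw [cut_compl] at h6
    rw [hdeg] at h5 h6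
    omega
  · rw [hsum1] at hMw
    nlinarith
  · rcases hd v with h5 | h5
    · rw [hM0 v h5]; omega
    · rw [hM1 v h5]

/-- **Main inequality.** -/
theorem exists_sol {r : ℕ} (hr : Odd r) (hr3 : 3 ≤ r) (n : ℕ) : ∀ (a b : E → V) (w : E → ℝ),
    OC r a b → (∀ e, 0 ≤ w e) →
    (univ.filter fun e => a e ≠ b e).card < n → ∃ J, Sol r a b w J := by
  classical
  induction n with
  | zero => intro a b w _ _ h; omega
  | succ n IH =>
    intro a b w h hw hn
    by_cases hd : ∀ v, (cut a b univ {v}).card = 0 ∨ (cut a b univ {v}).card = r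
    · obtain ⟨J, hJ, _⟩ := base_case hr hr3 h hd w hw
      exact ⟨J, hJ⟩
    · push Not at hd
      obtain ⟨v, h0, h1⟩ := hd
      obtain ⟨e, f, x, y, hef, he, hf, hvx, hvy, hZ⟩ := exists_pair hr hr3 h h0 h1
      have hnle : ∀ {g u z}, s(a g, b g) = s(u, z) → u ≠ z → a g ≠ b g := by
        intro g u z h1 h2 h3
        rw [h3, Sym2.eq_iff] at h1
        rcases h1 with ⟨h4, h5⟩ | ⟨h4, h5⟩
        · exact h2 (h4.symm.trans h5)
        · exact h2 (h5.symm.trans h4)
      obtain ⟨J, hJ⟩ := IH (sa a e f v x) (sb b e f v y)
        (Function.update (Function.update w e (w e + w f)) f 0) (h.split hr hef he hf hZ) (by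
          intro g
          by_cases h2 : g = f
          · subst h2; simp
          · rw [Function.update_of_ne h2]
            by_cases h3 : g = e
            · subst h3
              rw [Function.update_self]
              exact add_nonneg (hw _) (hw _)
            · rw [Function.update_of_ne h3]; exact hw g) (by
          refine lt_of_lt_of_le (card_lt_card ?_) (Nat.lt_succ_iff.1 hn)
          rw [Finset.ssubset_iff_of_subset]
          · refine ⟨f, ?_, ?_⟩
            · simp only [mem_filter, mem_univ, true_and]; exact hnle hf hvy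
            · simp only [mem_filter, mem_univ, true_and, sa_f, sb_f, ne_eq, not_true,
                not_false_eq_true]
          · intro g hg
            simp only [mem_filter, mem_univ, true_and] at hg ⊢
            by_cases h2 : g = f
            · subst h2; exact hnle hf hvy
            · by_cases h3 : g = e
              · subst h3; exact hnle he hvx
              · rwa [sa_o h3 h2, sb_o h3 h2] at hg)
      exact ⟨_, hJ.of_split hef he hf hvx hvy⟩

end Pool.Agent.Lib.MP_d47134_co
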