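import Mathlib
import Pool.Agent.Lib.MP_a46439_co.Tutte

/-!
# Edmonds' perfect matching theorem, in the form used for short even covers

A multigraph is given by finite types `V`, `E` and the end maps `a b : E → V`; loops are allowed
and never lie in a cut.
-/

set_option autoImplicit false
set_option linter.unusedSectionVars false

namespace Pool.Agent.Lib.MP_d47134_co

open Finset

variable {V E : Type} [Fintype V] [DecidableEq V] [Fintype E] [DecidableEq E]

/-- The edges of `M` with exactly one end in `X`. -/
def cut (a b : E → V) (M : Finset E) (X : Finset V) : Finset E :=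
  M.filter fun e => ¬ (a e ∈ X ↔ b e ∈ X)

omit [Fintype V] [Fintype E] [DecidableEq E] in
lemma mem_cut {a b : E → V} {M : Finset E} {X : Finset V} {e : E} :
    e ∈ cut a b M X ↔ e ∈ M ∧ ¬ (a e ∈ X ↔ b e ∈ X) := by simp [cut]

/-- `x` is in the cone over the perfect matching polytope (height `c`). -/
structure Good (a b : E → V) (x : E → ℝ) (c : ℝ) : Prop where
  pos : 0 < c
  nn : ∀ e, 0 ≤ x e
  loop : ∀ e, a e = b e → x e = 0
  deg : ∀ v, ∑ e ∈ cut a b univ {v}, x e = c
  odd : ∀ S : Finset V, Odd S.card → c ≤ ∑ e ∈ cut a b univ S, x e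

/-- `M` is a perfect matching in the support of `x`. -/
def PM (a b : E → V) (x : E → ℝ) (M : Finset E) : Prop :=
  (∀ e ∈ M, 0 < x e) ∧ ∀ v, (cut a b M {v}).card = 1

omit [Fintype E] [DecidableEq E] in
lemma parity (a b : E → V) (M : Finset E) (X : Finset V) :
    (((cut a b M X).card : ℕ) : ZMod 2) = ∑ v ∈ X, ((cut a b M {v}).card : ZMod 2) := by
  classical
  have h1 : ∀ Y : Finset V, (((cut a b M Y).card : ℕ) : ZMod 2) =
      ∑ e ∈ M, ((if a e ∈ Y then 1 else 0) + (if b e ∈ Y then 1 else 0) : ZMod 2) := by
    intro Y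
    rw [cut, card_filter]
    push_cast
    refine sum_congr rfl fun e _ => ?_
    by_cases h1 : a e ∈ Y <;> by_cases h2 : b e ∈ Y <;> simp [h1, h2]
    decide
  rw [h1]
  have h2 : ∑ v ∈ X, ((cut a b M {v}).card : ZMod 2) = ∑ v ∈ X, ∑ e ∈ M,
      ((if a e ∈ ({v} : Finset V) then 1 else 0) + (if b e ∈ ({v} : Finset V) then 1 else 0)
        : ZMod 2) := sum_congr rfl fun v _ => h1 {v}
  rw [h2, sum_comm]
  refine sum_congr rfl fun e _ => ?_
  rw [sum_add_distrib]
  congr 1 <;> simp

omit [Fintype E] [DecidableEq E] in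
lemma PM.odd {a b : E → V} {x : E → ℝ} {M : Finset E} (h : PM a b x M) {S : Finset V}
    (hS : Odd S.card) : Odd (cut a b M S).card := by
  have h1 := parity a b M S
  have h2 : ∑ v ∈ S, ((cut a b M {v}).card : ZMod 2) = (S.card : ZMod 2) := by
    rw [sum_congr rfl fun v _ => by rw [h.2 v]]
    simp
  rw [h2] at h1
  have h3 : ((S.card : ℕ) : ZMod 2) = 1 := by
    obtain ⟨k, hk⟩ := hS
    rw [hk]; push_cast
    have : (2 : ZMod 2) = 0 := by decide
    rw [this]; ring
  rw [h3] at h1
  by_contra h4
  rw [Nat.not_odd_iff_even] at h4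
  obtain ⟨k, hk⟩ := h4
  rw [hk] at h1
  push_cast at h1
  have : ((k : ZMod 2)) + k = 0 := by
    have : (2 : ZMod 2) = 0 := by decide
    rw [← two_mul, this, zero_mul]
  rw [this] at h1
  exact absurd h1 (by decide)

lemma Good.even_card {a b : E → V} {x : E → ℝ} {c : ℝ} (h : Good a b x c) :
    Even (Fintype.card V) := by
  by_contra h1
  rw [Nat.not_even_iff_odd, ← card_univ] at h1
  have h2 := h.odd univ h1
  have h3 : cut a b univ (univ : Finset V) = ∅ := by
    ext e; simp [mem_cut]
  rw [h3, sum_empty] at h2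
  exact absurd h.pos (by linarith)

/-- Tutte's theorem gives a perfect matching in the support. -/
theorem Good.exists_pm {a b : E → V} {x : E → ℝ} {c : ℝ} (h : Good a b x c) :
    ∃ M, PM a b x M := by
  classical
  let R : SimpleGraph V :=
    { Adj := fun u v => u ≠ v ∧ ∃ e, 0 < x e ∧ s(a e, b e) = s(u, v)
      symm := ⟨fun u v h => ⟨h.1.symm, by
        obtain ⟨e, he, h2⟩ := h.2
        exact ⟨e, he, by rw [h2, Sym2.eq_swap]⟩⟩⟩
      loopless := ⟨fun v h => h.1 rfl⟩ }
  rcases Pool.Agent.LTD.friendly_tutte R h.even_card with ⟨m, hm1, hm2⟩ | ⟨U, C, hUC, hC, hdis⟩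
  · let G : Sym2 V → Option E := fun z =>
      if hz : ∃ e, 0 < x e ∧ s(a e, b e) = z then some hz.choose else none
    have hG : ∀ z e, G z = some e → 0 < x e ∧ s(a e, b e) = z := by
      intro z e he
      simp only [G] at he
      split_ifs at he with hz
      have := hz.choose_spec
      rw [Option.some.injEq] at he
      rw [he] at this
      exact this
    have hG2 : ∀ v, ∃ e, G s(v, m v) = some e := by
      intro v
      have := (hm1 v).2
      exact ⟨this.choose, by simp only [G]; rw [dif_pos this]⟩
    refine ⟨univ.filter fun e => ∃ v, G s(v, m v) = some e, ?_, ?_⟩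
    · intro e he
      simp only [mem_filter, mem_univ, true_and] at he
      obtain ⟨v, hv⟩ := he
      exact (hG _ _ hv).1
    · intro v
      obtain ⟨e0, he0⟩ := hG2 v
      rw [card_eq_one]
      refine ⟨e0, ?_⟩
      ext e
      simp only [mem_cut, mem_filter, mem_univ, true_and, mem_singleton]
      constructor
      · rintro ⟨⟨u, hu⟩, hne⟩
        have h1 := (hG _ _ hu).2
        rw [Sym2.eq_iff] at h1
        have h2 : v = u ∨ v = m u := by
          rcases h1 with ⟨h1, h2⟩ | ⟨h1, h2⟩ <;> rw [h1, h2] at hne <;>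
            by_contra h3 <;> push Not at h3 <;> exact hne ⟨fun h => absurd h.symm (by tauto),
              fun h => absurd h.symm (by tauto)⟩
        have h3 : s(u, m u) = s(v, m v) := by
          rcases h2 with h2 | h2
          · rw [h2]
          · rw [h2, hm2, Sym2.eq_swap]
        rw [h3, he0, Option.some.injEq] at hu
        exact hu.symm
      · rintro rfl
        refine ⟨⟨v, he0⟩, ?_⟩
        have h1 := (hG _ _ he0).2
        have hne := (hm1 v).1
        rw [Sym2.eq_iff] at h1
        rcases h1 with ⟨h1, h2⟩ | ⟨h1, h2⟩ <;> rw [h1, h2]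
        · intro h3; exact hne (h3.1 rfl).symm
        · intro h3; exact hne (h3.2 rfl).symm
  · exfalso
    have key : ∀ e, 0 < x e → (C.filter fun Y => e ∈ cut a b univ Y).card ≤
        (U.filter fun u => e ∈ cut a b univ ({u} : Finset V)).card := by
      intro e he
      have hab : a e ≠ b e := fun h1 => by rw [h.loop e h1] at he; exact lt_irrefl _ he
      rcases (C.filter fun Y => e ∈ cut a b univ Y).eq_empty_or_nonempty with h1 | ⟨Y, hY⟩
      · rw [h1]; simp
      · have h2 : (C.filter fun Y => e ∈ cut a b univ Y).card ≤ 1 := by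
          rw [card_le_one]
          intro Y hY Y' hY'
          simp only [mem_filter, mem_cut, mem_univ, true_and] at hY hY'
          by_contra hne
          have hd := hdis Y hY.1 Y' hY'.1 hne
          rw [Finset.disjoint_left] at hd
          have hd2 := (hC Y hY.1).2.1
          have hd3 := (hC Y' hY'.1).2.1
          rw [Finset.disjoint_left] at hd2 hd3
          by_cases h3 : a e ∈ Y
          · have h4 : b e ∉ Y := fun h => hY.2 ⟨fun _ => h, fun _ => h3⟩
            have h5 := (hC Y hY.1).2.2 (a e) h3 (b e) ⟨hab, e, he, rfl⟩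
            have h6 : b e ∈ U := h5.resolve_left h4
            by_cases h7 : a e ∈ Y'
            · exact hd h3 h7
            · have : b e ∈ Y' := by
                by_contra h8; exact hY'.2 ⟨fun h => absurd h h7, fun h => absurd h h8⟩
              exact hd3 this h6
          · have h4 : b e ∈ Y := by
              by_contra h8; exact hY.2 ⟨fun h => absurd h h3, fun h => absurd h h8⟩
            have h5 := (hC Y hY.1).2.2 (b e) h4 (a e) ⟨hab.symm, e, he, Sym2.eq_swap⟩
            have h6 : a e ∈ U := h5.resolve_left h3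
            by_cases h7 : b e ∈ Y'
            · exact hd h4 h7
            · have : a e ∈ Y' := by
                by_contra h8; exact hY'.2 ⟨fun h => absurd h h8, fun h => absurd h h7⟩
              exact hd3 this h6
        refine h2.trans ?_
        rw [Nat.one_le_iff_ne_zero, ← Nat.pos_iff_ne_zero, card_pos]
        simp only [mem_filter, mem_cut, mem_univ, true_and] at hY
        by_cases h3 : a e ∈ Y
        · have h4 : b e ∉ Y := fun h => hY.2 ⟨fun _ => h, fun _ => h3⟩
          have h5 := (hC Y hY.1).2.2 (a e) h3 (b e) ⟨hab, e, he, rfl⟩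
          refine ⟨b e, ?_⟩
          simp only [mem_filter, mem_cut, mem_univ, true_and, mem_singleton]
          refine ⟨h5.resolve_left h4, fun h => hab (h.2 trivial)⟩
        · have h4 : b e ∈ Y := by
            by_contra h8; exact hY.2 ⟨fun h => absurd h h3, fun h => absurd h h8⟩
          have h5 := (hC Y hY.1).2.2 (b e) h4 (a e) ⟨hab.symm, e, he, Sym2.eq_swap⟩
          refine ⟨a e, ?_⟩
          simp only [mem_filter, mem_cut, mem_univ, true_and, mem_singleton]
          refine ⟨h5.resolve_left h3, fun h => hab (h.1 trivial).symm⟩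
    have h1 : ∑ Y ∈ C, ∑ e ∈ cut a b univ Y, x e =
        ∑ e, ((C.filter fun Y => e ∈ cut a b univ Y).card : ℝ) * x e := by
      have : ∀ Y ∈ C, ∑ e ∈ cut a b univ Y, x e = ∑ e, if e ∈ cut a b univ Y then x e else 0 := by
        intro Y _
        rw [← sum_filter]
        congr 1
        ext e; simp
      rw [sum_congr rfl this, sum_comm]
      refine sum_congr rfl fun e _ => ?_
      rw [← sum_filter, sum_const, nsmul_eq_mul]
    have h2 : ∑ u ∈ U, ∑ e ∈ cut a b univ {u}, x e =
        ∑ e, ((U.filter fun u => e ∈ cut a b univ ({u} : Finset V)).card : ℝ) * x e := by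
      have : ∀ u ∈ U, ∑ e ∈ cut a b univ {u}, x e =
          ∑ e, if e ∈ cut a b univ {u} then x e else 0 := by
        intro Y _
        rw [← sum_filter]
        congr 1
        ext e; simp
      rw [sum_congr rfl this, sum_comm]
      refine sum_congr rfl fun e _ => ?_
      rw [← sum_filter, sum_const, nsmul_eq_mul]
    have h3 : ∑ Y ∈ C, ∑ e ∈ cut a b univ Y, x e ≤ ∑ u ∈ U, ∑ e ∈ cut a b univ {u}, x e := by
      rw [h1, h2]
      refine sum_le_sum fun e _ => ?_
      rcases (h.nn e).lt_or_eq with he | he
      · exact mul_le_mul_of_nonneg_right (by exact_mod_cast key e he) he.le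
      · rw [← he]; simp
    have h4 : ∑ u ∈ U, ∑ e ∈ cut a b univ {u}, x e = U.card * c := by
      rw [sum_congr rfl fun u _ => h.deg u, sum_const, nsmul_eq_mul]
    have h5 : (C.card : ℝ) * c ≤ ∑ Y ∈ C, ∑ e ∈ cut a b univ Y, x e := by
      rw [← nsmul_eq_mul, ← sum_const]
      exact sum_le_sum fun Y hY => h.odd Y (hC Y hY).1
    have h6 : ((U.card : ℝ) + 2) * c ≤ C.card * c :=
      mul_le_mul_of_nonneg_right (by exact_mod_cast hUC) h.pos.le
    have := h.pos
    nlinarith

/-- Contraction along a map with odd, tight fibres. -/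
lemma Good.push {a b : E → V} {x : E → ℝ} {c : ℝ} (h : Good a b x c)
    {W : Type} [Fintype W] [DecidableEq W] (π : V → W)
    (hodd : ∀ w, Odd (univ.filter fun v => π v = w).card)
    (ht : ∀ w, ∑ e ∈ cut a b univ (univ.filter fun v => π v = w), x e = c) :
    Good (π ∘ a) (π ∘ b) (fun e => if π (a e) = π (b e) then 0 else x e) c := by
  classical
  have hcut : ∀ X : Finset W, cut (π ∘ a) (π ∘ b) univ X =
      cut a b univ (univ.filter fun v => π v ∈ X) := by
    intro X; ext e; simp [mem_cut]
  have hsum : ∀ X : Finset W, ∑ e ∈ cut (π ∘ a) (π ∘ b) univ X,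
      (if π (a e) = π (b e) then 0 else x e) =
      ∑ e ∈ cut a b univ (univ.filter fun v => π v ∈ X), x e := by
    intro X
    rw [hcut]
    refine sum_congr rfl fun e he => ?_
    rw [if_neg]
    intro h1
    rw [mem_cut] at he
    apply he.2
    simp [h1]
  refine ⟨h.pos, fun e => ?_, fun e he => ?_, fun w => ?_, fun X hX => ?_⟩
  · split_ifs
    · exact le_rfl
    · exact h.nn e
  · exact if_pos he
  · rw [hsum]
    have : (univ.filter fun v => π v ∈ ({w} : Finset W)) = univ.filter fun v => π v = w := by
      ext v; simp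
    rw [this, ht]
  · rw [hsum]
    apply h.odd
    have h1 : (univ.filter fun v => π v ∈ X).card =
        ∑ w ∈ X, (univ.filter fun v => π v = w).card := by
      rw [card_eq_sum_card_fiberwise (f := π) (t := X) (fun v hv => by simpa using hv)]
      refine sum_congr rfl fun w hw => ?_
      congr 1
      ext v
      simp only [mem_filter, mem_univ, true_and]
      exact ⟨fun h => h.2, fun h => ⟨by rw [h]; exact hw, h⟩⟩
    rw [h1, ← Nat.not_even_iff_odd, even_iff_two_dvd, ← ZMod.natCast_eq_zero_iff]
    push_cast
    have h2 : ∀ w ∈ X, (((univ.filter fun v => π v = w).card : ℕ) : ZMod 2) = 1 := by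
      intro w _
      obtain ⟨k, hk⟩ := hodd w
      rw [hk]; push_cast
      have : (2 : ZMod 2) = 0 := by decide
      rw [this]; ring
    rw [sum_congr rfl h2]
    obtain ⟨k, hk⟩ := hX
    rw [sum_const, hk, nsmul_eq_mul]
    push_cast
    have : (2 : ZMod 2) = 0 := by decide
    rw [this]
    simp

/-- The statement of the weighted matching theorem for one graph. -/
def Stm (a b : E → V) (x : E → ℝ) (c : ℝ) : Prop :=
  ∀ w : E → ℝ, ∃ M, PM a b x M ∧ c * ∑ e ∈ M, w e ≤ ∑ e, w e * x e

/-- The contraction of the complement of `S`. -/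
noncomputable def con (S : Finset V) (v : V) : Option {v // v ∈ S} :=
  if h : v ∈ S then some ⟨v, h⟩ else none

lemma con_eq_iff (S : Finset V) (u v : V) :
    con S u = con S v ↔ u = v ∨ (u ∉ S ∧ v ∉ S) := by
  unfold con
  by_cases h1 : u ∈ S <;> by_cases h2 : v ∈ S <;> simp [h1, h2]
  · rintro rfl; exact h2 h1
  · rintro rfl; exact h1 h2

/-- Perfect matchings of the contraction of the complement of `S`. -/
def PS (a b : E → V) (x : E → ℝ) (S : Finset V) (M : Finset E) : Prop :=
  (∀ e ∈ M, 0 < x e ∧ (a e ∈ S ∨ b e ∈ S)) ∧ (∀ v ∈ S, (cut a b M {v}).card = 1) ∧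
    (cut a b M S).card = 1

lemma contract {a b : E → V} {x : E → ℝ} {c : ℝ} (h : Good a b x c) {S : Finset V}
    (ht : ∑ e ∈ cut a b univ S, x e = c) (hc : Odd (Sᶜ).card)
    (IH : ∀ (a' b' : E → Option {v // v ∈ S}) (x' : E → ℝ), Good a' b' x' c →
      (∀ e, 0 < x' e → 0 < x e) → Stm a' b' x' c) (w : E → ℝ) :
    ∃ M, PS a b x S M ∧
      c * ∑ e ∈ M, w e ≤ ∑ e ∈ univ.filter (fun e => a e ∈ S ∨ b e ∈ S), w e * x e := by
  classical
  have fib1 : ∀ s : {v // v ∈ S}, (univ.filter fun v => con S v = some s) = {s.1} := by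
    intro s
    ext v
    simp only [mem_filter, mem_univ, true_and, mem_singleton]
    unfold con
    split_ifs with h1
    · rw [Option.some.injEq, Subtype.ext_iff]
    · simp only [false_iff]
      rintro rfl; exact h1 s.2
  have fib2 : (univ.filter fun v => con S v = none) = Sᶜ := by
    ext v
    simp only [mem_filter, mem_univ, true_and, mem_compl]
    unfold con
    split_ifs with h1 <;> simp [h1]
  have hcc : ∀ M : Finset E, cut a b M Sᶜ = cut a b M S := by
    intro M; ext e; simp only [mem_cut, mem_compl]; tauto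
  have h1 := h.push (con S) (by
    intro w
    rcases w with _ | s
    · rw [fib2]; exact hc
    · rw [fib1]; simp) (by
    intro w
    rcases w with _ | s
    · rw [fib2, hcc]; exact ht
    · rw [fib1]; exact h.deg _)
  obtain ⟨M, ⟨hM1, hM2⟩, hM3⟩ := IH _ _ _ h1 (by
    intro e he
    split_ifs at he
    · exact absurd he (lt_irrefl _)
    · exact he) w
  have hcut : ∀ X, cut (con S ∘ a) (con S ∘ b) M X =
      cut a b M (univ.filter fun v => con S v ∈ X) := by
    intro X; ext e; simp [mem_cut]
  refine ⟨M, ⟨?_, ?_, ?_⟩, ?_⟩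
  · intro e he
    have h2 := hM1 e he
    dsimp only at h2
    split_ifs at h2 with h3
    · exact absurd h2 (lt_irrefl _)
    · rw [con_eq_iff] at h3
      refine ⟨h2, ?_⟩
      by_contra h4
      push Not at h4
      exact h3 (Or.inr h4)
  · intro v hv
    have h2 := hM2 (some ⟨v, hv⟩)
    rw [hcut] at h2
    have h3 := fib1 ⟨v, hv⟩
    simp only [mem_singleton] at h2
    rw [h3] at h2
    exact h2
  · have h2 := hM2 none
    rw [hcut] at h2
    simp only [mem_singleton] at h2
    rw [fib2, hcc] at h2
    exact h2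
  · refine hM3.trans ?_
    rw [sum_filter]
    refine (sum_le_sum fun e _ => ?_)
    simp only [con_eq_iff]
    by_cases h2 : a e ∈ S ∨ b e ∈ S
    · rw [if_pos h2]
      by_cases h3 : a e = b e
      · rw [if_pos (Or.inl h3), h.loop e h3]
      · rw [if_neg]
        push Not
        exact ⟨h3, fun h4 => h2.resolve_left h4⟩
    · rw [if_neg h2, if_pos]
      · simp
      · push Not at h2; exact Or.inr h2

lemma cut_compl (a b : E → V) (M : Finset E) (S : Finset V) : cut a b M Sᶜ = cut a b M S := by
  ext e; simp only [mem_cut, mem_compl]; tauto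

/-- Gluing of the two contractions along a tight cut. -/
lemma glue {a b : E → V} {x : E → ℝ} {c : ℝ} (h : Good a b x c) {S : Finset V}
    (H2 : ∀ w : E → ℝ, ∃ M, PS a b x S M ∧
      c * ∑ e ∈ M, w e ≤ ∑ e ∈ univ.filter (fun e => a e ∈ S ∨ b e ∈ S), w e * x e)
    (H1 : ∀ w : E → ℝ, ∃ M, PS a b x Sᶜ M ∧
      c * ∑ e ∈ M, w e ≤ ∑ e ∈ univ.filter (fun e => a e ∈ Sᶜ ∨ b e ∈ Sᶜ), w e * x e) :
    Stm a b x c := by
  classical
  intro w
  let g : Finset E → ℝ := fun M => ∑ e ∈ M \ cut a b univ S, w e
  have hB : ∀ f, ∃ Bf : Finset E, f ∈ cut a b univ S → 0 < x f →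
      PS a b x S Bf ∧ f ∈ Bf ∧ ∀ M, PS a b x S M → f ∈ M → g Bf ≤ g M := by
    intro f
    by_cases hf : f ∈ cut a b univ S ∧ 0 < x f
    · have h1 : ∃ M, PS a b x S M ∧ f ∈ M := by
        obtain ⟨M, hM, hM2⟩ := H2 fun e => if e = f then -1 else 0
        refine ⟨M, hM, ?_⟩
        by_contra h2
        have h3 : ∑ e ∈ M, (if e = f then (-1 : ℝ) else 0) = 0 := by
          refine sum_eq_zero fun e he => if_neg ?_
          rintro rfl; exact h2 he
        have h4 : ∑ e ∈ univ.filter (fun e => a e ∈ S ∨ b e ∈ S),
            (if e = f then (-1 : ℝ) else 0) * x e = - x f := by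
          rw [sum_eq_single f]
          · simp
          · intro e _ he; simp [he]
          · intro h5
            exfalso; apply h5
            have := hf.1
            simp only [mem_cut, mem_univ, true_and] at this
            simp only [mem_filter, mem_univ, true_and]
            tauto
        rw [h3, h4] at hM2
        linarith [hf.2]
      obtain ⟨M0, hM0, hfM0⟩ := h1
      obtain ⟨M, hM, hM2⟩ := exists_min_image (univ.filter fun M => PS a b x S M ∧ f ∈ M) g
        ⟨M0, by simp [hM0, hfM0]⟩
      simp only [mem_filter, mem_univ, true_and] at hM hM2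
      exact ⟨M, fun _ _ => ⟨hM.1, hM.2, fun M' h1 h2 => hM2 M' ⟨h1, h2⟩⟩⟩
    · exact ⟨∅, fun h1 h2 => absurd ⟨h1, h2⟩ hf⟩
  choose B hB using hB
  -- the unique crossing edge
  have huniq : ∀ (Z : Finset V) (M : Finset E), PS a b x Z M → (∀ M, cut a b M Z = cut a b M S) →
      ∃ f, f ∈ M ∧ f ∈ cut a b univ S ∧ 0 < x f ∧ ∀ e ∈ M, e ∈ cut a b univ S → e = f := by
    intro Z M hM hZ
    have h1 := hM.2.2
    rw [hZ, card_eq_one] at h1
    obtain ⟨f, hf⟩ := h1
    have h2 : f ∈ cut a b M S := by rw [hf]; exact mem_singleton_self _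
    refine ⟨f, (mem_cut.1 h2).1, mem_cut.2 ⟨mem_univ _, (mem_cut.1 h2).2⟩,
      (hM.1 f (mem_cut.1 h2).1).1, fun e he he2 => ?_⟩
    have h3 : e ∈ cut a b M S := mem_cut.2 ⟨he, (mem_cut.1 he2).2⟩
    rw [hf] at h3
    exact mem_singleton.1 h3
  obtain ⟨M2, hM2, hM2w⟩ := H2 fun f => if f ∈ cut a b univ S then - g (B f) else w f
  obtain ⟨f2, hf2, hf2c, hf2x, hf2u⟩ := huniq S M2 hM2 fun _ => rfl
  have hsplit : ∀ (M : Finset E) (f : E) (v : E → ℝ), f ∈ M → f ∈ cut a b univ S →
      (∀ e ∈ M, e ∈ cut a b univ S → e = f) →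
      ∑ e ∈ M, (if e ∈ cut a b univ S then v e else w e) = v f + g M := by
    intro M f v h1 h2 h3
    have h4 : M = insert f (M \ cut a b univ S) := by
      ext e
      simp only [mem_insert, mem_sdiff]
      constructor
      · intro he
        by_cases h5 : e ∈ cut a b univ S
        · exact Or.inl (h3 e he h5)
        · exact Or.inr ⟨he, h5⟩
      · rintro (rfl | h5)
        · exact h1
        · exact h5.1
    have h5 : f ∉ M \ cut a b univ S := fun h => (mem_sdiff.1 h).2 h2
    conv_lhs => rw [h4]
    rw [sum_insert h5, if_pos h2]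
    congr 1
    refine sum_congr rfl fun e he => if_neg (mem_sdiff.1 he).2
  have hpos2 : 0 ≤ ∑ e ∈ M2, (if e ∈ cut a b univ S then - g (B e) else w e) := by
    rw [hsplit M2 f2 (fun e => - g (B e)) hf2 hf2c hf2u]
    have := (hB f2 hf2c hf2x).2.2 M2 hM2 hf2
    linarith
  have hpos : 0 ≤ ∑ e ∈ univ.filter (fun e => a e ∈ S ∨ b e ∈ S),
      (if e ∈ cut a b univ S then - g (B e) else w e) * x e :=
    (mul_nonneg h.pos.le hpos2).trans hM2w
  obtain ⟨M1, hM1, hM1w⟩ := H1 fun f => if f ∈ cut a b univ S then w f + g (B f) else w f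
  obtain ⟨f1, hf1, hf1c, hf1x, hf1u⟩ := huniq Sᶜ M1 hM1 fun M => cut_compl a b M S
  rw [hsplit M1 f1 (fun e => w e + g (B e)) hf1 hf1c hf1u] at hM1w
  obtain ⟨hB1, hB2, hB3⟩ := hB f1 hf1c hf1x
  obtain ⟨f3, hf3, hf3c, hf3x, hf3u⟩ := huniq S (B f1) hB1 fun _ => rfl
  have h31 : f1 = f3 := hf3u f1 hB2 hf1c
  subst h31
  refine ⟨M1 ∪ B f1, ⟨?_, ?_⟩, ?_⟩
  · intro e he
    rcases mem_union.1 he with he | he
    · exact (hM1.1 e he).1
    · exact (hB1.1 e he).1
  · intro v
    by_cases hv : v ∈ S
    · rw [← hB1.2.1 v hv]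
      congr 1
      ext e
      simp only [mem_cut, mem_union, mem_singleton]
      refine ⟨fun ⟨h1, h2⟩ => ⟨?_, h2⟩, fun ⟨h1, h2⟩ => ⟨Or.inr h1, h2⟩⟩
      rcases h1 with h1 | h1
      · have h3 := (hM1.1 e h1).2
        simp only [mem_compl] at h3
        have h4 : e ∈ cut a b univ S := by
          refine mem_cut.2 ⟨mem_univ _, fun h5 => ?_⟩
          by_cases h6 : a e = v
          · have h7 : a e ∈ S := by rw [h6]; exact hv
            have h8 := h5.1 h7
            tauto
          · have h6' : b e = v := by
              by_contra h7; exact h2 ⟨fun h => absurd h h6, fun h => absurd h h7⟩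
            have h7 : b e ∈ S := by rw [h6']; exact hv
            have h8 := h5.2 h7
            tauto
        rw [hf1u e h1 h4]; exact hB2
      · exact h1
    · rw [← hM1.2.1 v (mem_compl.2 hv)]
      congr 1
      ext e
      simp only [mem_cut, mem_union, mem_singleton]
      refine ⟨fun ⟨h1, h2⟩ => ⟨?_, h2⟩, fun ⟨h1, h2⟩ => ⟨Or.inl h1, h2⟩⟩
      rcases h1 with h1 | h1
      · exact h1
      · have h3 := (hB1.1 e h1).2
        have h4 : e ∈ cut a b univ S := by
          refine mem_cut.2 ⟨mem_univ _, fun h5 => ?_⟩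
          by_cases h6 : a e = v
          · have h7 : a e ∉ S := by rw [h6]; exact hv
            tauto
          · have h6' : b e = v := by
              by_contra h7; exact h2 ⟨fun h => absurd h h6, fun h => absurd h h7⟩
            have h7 : b e ∉ S := by rw [h6']; exact hv
            tauto
        rw [hf3u e h1 h4]; exact hf1
  · have hsum : ∑ e ∈ M1 ∪ B f1, w e = w f1 + g (B f1) + g M1 := by
      have h1 : ∀ M : Finset E, f1 ∈ M → (∀ e ∈ M, e ∈ cut a b univ S → e = f1) →
          ∑ e ∈ M, w e = w f1 + g M := by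
        intro M h1 h2
        rw [← hsplit M f1 w h1 hf1c h2]
        exact sum_congr rfl fun e _ => by split_ifs <;> rfl
      rw [h1 (M1 ∪ B f1) (mem_union_left _ hf1) (fun e he => by
        rcases mem_union.1 he with he | he
        · exact hf1u e he
        · exact hf3u e he)]
      have h2 : (M1 ∪ B f1) \ cut a b univ S =
          (B f1 \ cut a b univ S) ∪ (M1 \ cut a b univ S) := by
        rw [union_sdiff_distrib, union_comm]
      have h3 : Disjoint (B f1 \ cut a b univ S) (M1 \ cut a b univ S) := by
        rw [Finset.disjoint_left]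
        intro e h4 h5
        rw [mem_sdiff] at h4 h5
        have h6 := (hB1.1 e h4.1).2
        have h7 := (hM1.1 e h5.1).2
        simp only [mem_compl] at h7
        apply h4.2
        rw [mem_cut]
        refine ⟨mem_univ _, ?_⟩
        tauto
      simp only [g]
      rw [h2, sum_union h3]
      ring
    have htot : ∑ e ∈ univ.filter (fun e => a e ∈ Sᶜ ∨ b e ∈ Sᶜ),
          (if e ∈ cut a b univ S then w e + g (B e) else w e) * x e +
        ∑ e ∈ univ.filter (fun e => a e ∈ S ∨ b e ∈ S),
          (if e ∈ cut a b univ S then - g (B e) else w e) * x e = ∑ e, w e * x e := by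
      rw [sum_filter, sum_filter, ← sum_add_distrib]
      refine sum_congr rfl fun e _ => ?_
      simp only [mem_compl, mem_cut, mem_univ, true_and]
      by_cases h1 : a e ∈ S <;> by_cases h2 : b e ∈ S <;> simp [h1, h2] <;> ring
    rw [hsum]
    have : w f1 + g (B f1) + g M1 = (w f1 + g (B f1)) + g M1 := rfl
    rw [this]
    linarith

lemma compl_odd {a b : E → V} {x : E → ℝ} {c : ℝ} (h : Good a b x c) {S : Finset V}
    (hS : Odd S.card) : Odd (Sᶜ).card := by
  have h1 := h.even_card
  have h2 := card_compl_add_card S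
  rw [← h2] at h1
  rw [Nat.even_add] at h1
  by_contra h3
  rw [Nat.not_odd_iff_even] at h3
  exact (Nat.not_even_iff_odd.2 hS) (h1.1 h3)

lemma tight_case (N : ℕ)
    (IH : ∀ (W : Type) [Fintype W] [DecidableEq W] (a' b' : E → W) (x' : E → ℝ) (c' : ℝ),
      Good a' b' x' c' → Fintype.card W + (univ.filter fun e => 0 < x' e).card < N →
      Stm a' b' x' c')
    {a b : E → V} {x : E → ℝ} {c : ℝ} (h : Good a b x c)
    (hN : Fintype.card V + (univ.filter fun e => 0 < x e).card ≤ N) {S : Finset V}
    (hS : Odd S.card) (hS1 : S.card ≠ 1) (hSc1 : (Sᶜ).card ≠ 1)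
    (ht : ∑ e ∈ cut a b univ S, x e = c) : Stm a b x c := by
  have hSc := compl_odd h hS
  have h2 := card_compl_add_card S
  have hS3 : 3 ≤ S.card := by
    obtain ⟨k, hk⟩ := hS
    omega
  have hSc3 : 3 ≤ (Sᶜ).card := by
    obtain ⟨k, hk⟩ := hSc
    omega
  have hsup : ∀ x' : E → ℝ, (∀ e, 0 < x' e → 0 < x e) →
      (univ.filter fun e => 0 < x' e).card ≤ (univ.filter fun e => 0 < x e).card := by
    intro x' hx'
    apply card_le_card
    intro e he
    simp only [mem_filter, mem_univ, true_and] at he ⊢
    exact hx' e he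
  apply glue h
  · refine contract h ht hSc fun a' b' x' h' hx' => IH _ a' b' x' c h' ?_
    have h3 := hsup x' hx'
    rw [Fintype.card_option, Fintype.card_coe]
    omega
  · refine contract h (by rw [cut_compl]; exact ht) (by rwa [compl_compl])
      fun a' b' x' h' hx' => IH _ a' b' x' c h' ?_
    have h3 := hsup x' hx'
    rw [Fintype.card_option, Fintype.card_coe]
    omega

/-- **Edmonds.** Every point of the cone over the perfect matching polytope dominates, for every
weight, a perfect matching in its support. -/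
theorem stm_all (N : ℕ) : ∀ (V : Type) [Fintype V] [DecidableEq V] (a b : E → V) (x : E → ℝ)
    (c : ℝ), Good a b x c → Fintype.card V + (univ.filter fun e => 0 < x e).card < N →
    Stm a b x c := by
  classical
  induction N with
  | zero => intro V _ _ a b x c _ h; omega
  | succ N IH =>
    intro V _ _ a b x c h hN
    have hN' : Fintype.card V + (univ.filter fun e => 0 < x e).card ≤ N := by omega
    by_cases hT : ∃ S : Finset V, Odd S.card ∧ S.card ≠ 1 ∧ (Sᶜ).card ≠ 1 ∧
        ∑ e ∈ cut a b univ S, x e = c
    · obtain ⟨S, hS, hS1, hSc1, ht⟩ := hT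
      exact tight_case N (fun W _ _ a' b' x' c' => IH W a' b' x' c') h hN' hS hS1 hSc1 ht
    push Not at hT
    intro w
    obtain ⟨M, hM⟩ := h.exists_pm
    rcases isEmpty_or_nonempty V with hV | ⟨⟨v0⟩⟩
    · have hE : IsEmpty E := ⟨fun e => hV.false (a e)⟩
      refine ⟨M, hM, ?_⟩
      have h1 : M = ∅ := by
        apply eq_empty_of_forall_notMem
        intro e; exact (hE.false e).elim
      rw [h1]; simp
    have hMne : M.Nonempty := by
      have h1 := hM.2 v0
      have h2 : (cut a b M {v0}).Nonempty := by rw [← card_pos, h1]; exact one_pos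
      obtain ⟨e, he⟩ := h2
      exact ⟨e, (mem_cut.1 he).1⟩
    let rt : Finset V → ℝ := fun S =>
      (∑ e ∈ cut a b univ S, x e - c) / ((cut a b M S).card - 1)
    let Cand : Finset ℝ := M.image x ∪
      (univ.filter fun S : Finset V => Odd S.card ∧ 2 ≤ (cut a b M S).card).image rt
    have hCne : Cand.Nonempty := by
      obtain ⟨e, he⟩ := hMne
      exact ⟨x e, mem_union_left _ (mem_image_of_mem x he)⟩
    set t := Cand.min' hCne with ht
    have htmem : t ∈ Cand := Cand.min'_mem hCne
    have htle : ∀ y ∈ Cand, t ≤ y := fun y hy => Cand.min'_le y hy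
    have hnt : ∀ S : Finset V, Odd S.card → 2 ≤ (cut a b M S).card →
        c < ∑ e ∈ cut a b univ S, x e := by
      intro S hS h2
      have h3 := hT S hS (by
        intro h4
        rw [card_eq_one] at h4
        obtain ⟨v, rfl⟩ := h4
        rw [hM.2 v] at h2; omega) (by
        intro h4
        rw [card_eq_one] at h4
        obtain ⟨v, hv⟩ := h4
        rw [← cut_compl, hv, hM.2 v] at h2; omega)
      exact lt_of_le_of_ne (h.odd S hS) (Ne.symm h3)
    have hcast : ∀ S : Finset V, 2 ≤ (cut a b M S).card →
        (0 : ℝ) < (cut a b M S).card - 1 := by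
      intro S h2
      have : (2 : ℝ) ≤ (cut a b M S).card := by exact_mod_cast h2
      linarith
    have htpos : 0 < t := by
      have : ∀ y ∈ Cand, 0 < y := by
        intro y hy
        rcases mem_union.1 hy with hy | hy
        · obtain ⟨e, he, rfl⟩ := mem_image.1 hy
          exact hM.1 e he
        · obtain ⟨S, hS, rfl⟩ := mem_image.1 hy
          simp only [mem_filter, mem_univ, true_and] at hS
          exact div_pos (by linarith [hnt S hS.1 hS.2]) (hcast S hS.2)
      exact this t htmem
    have htx : ∀ e ∈ M, t ≤ x e := fun e he =>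
      htle _ (mem_union_left _ (mem_image_of_mem x he))
    have hnl : ∀ e ∈ M, a e ≠ b e := fun e he h1 => by
      have := hM.1 e he
      rw [h.loop e h1] at this
      exact lt_irrefl _ this
    have htc : t ≤ c := by
      obtain ⟨e, he⟩ := hMne
      refine (htx e he).trans ?_
      rw [← h.deg (a e)]
      refine single_le_sum (f := x) (fun i _ => h.nn i) (mem_cut.2 ⟨mem_univ _, ?_⟩)
      simp only [mem_singleton, true_iff]
      exact fun h1 => hnl e he h1.symm
    let x' : E → ℝ := fun e => x e - if e ∈ M then t else 0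
    have hx'le : ∀ e, x' e ≤ x e := by
      intro e; simp only [x']; split_ifs <;> linarith
    have hx'nn : ∀ e, 0 ≤ x' e := by
      intro e; simp only [x']; split_ifs with h1
      · linarith [htx e h1]
      · linarith [h.nn e]
    have hx'sum : ∀ X : Finset V, ∑ e ∈ cut a b univ X, x' e =
        ∑ e ∈ cut a b univ X, x e - t * (cut a b M X).card := by
      intro X
      simp only [x']
      rw [sum_sub_distrib, ← sum_filter]
      congr 1
      rw [sum_const, nsmul_eq_mul, mul_comm]
      congr 3
      ext e; simp only [mem_filter, mem_cut, mem_univ, true_and]; tauto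
    have hx'w : ∑ e, w e * x' e = ∑ e, w e * x e - t * ∑ e ∈ M, w e := by
      simp only [x', mul_sub]
      rw [sum_sub_distrib]
      congr 1
      rw [mul_sum, ← sum_filter_add_sum_filter_not univ (fun e => e ∈ M)]
      rw [sum_eq_zero (s := univ.filter fun e => ¬ e ∈ M), add_zero]
      · refine sum_congr (by ext e; simp) fun e he => ?_
        rw [if_pos he]; ring
      · intro e he
        simp only [mem_filter, mem_univ, true_and] at he
        rw [if_neg he, mul_zero]
    rcases htc.eq_or_lt with htc | htc
    · -- `x` is a multiple of `M`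
      refine ⟨M, hM, ?_⟩
      have h0 : ∀ e, x' e = 0 := by
        intro e
        by_cases hl : a e = b e
        · apply le_antisymm _ (hx'nn e)
          refine (hx'le e).trans ?_
          rw [h.loop e hl]
        · have h1 := hx'sum {a e}
          rw [h.deg, hM.2, htc] at h1
          have h2 : ∑ e ∈ cut a b univ {a e}, x' e = 0 := by rw [h1]; simp
          rw [sum_eq_zero_iff_of_nonneg (fun i _ => hx'nn i)] at h2
          refine h2 e (mem_cut.2 ⟨mem_univ _, ?_⟩)
          simp only [mem_singleton, true_iff]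
          exact fun h3 => hl h3.symm
      have h1 : ∑ e, w e * x' e = 0 := sum_eq_zero fun e _ => by rw [h0, mul_zero]
      rw [h1, htc] at hx'w
      linarith
    · have h' : Good a b x' (c - t) := by
        refine ⟨by linarith, hx'nn, fun e he => ?_, fun v => ?_, fun S hS => ?_⟩
        · apply le_antisymm _ (hx'nn e)
          refine (hx'le e).trans ?_
          rw [h.loop e he]
        · rw [hx'sum, h.deg, hM.2]; simp
        · rw [hx'sum]
          have h1 := hM.odd hS
          by_cases h2 : 2 ≤ (cut a b M S).card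
          · have h3 := htle (rt S) (mem_union_right _ (mem_image_of_mem rt (by simp [hS, h2])))
            simp only [rt] at h3
            rw [le_div_iff₀ (hcast S h2)] at h3
            linarith
          · have h3 : (cut a b M S).card = 1 := by
              obtain ⟨k, hk⟩ := h1
              omega
            rw [h3]
            have := h.odd S hS
            push_cast
            linarith
      have hsup : (univ.filter fun e => 0 < x' e) ⊆ (univ.filter fun e => 0 < x e) := by
        intro e he
        simp only [mem_filter, mem_univ, true_and] at he ⊢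
        exact lt_of_lt_of_le he (hx'le e)
      have key : Stm a b x' (c - t) := by
        rcases mem_union.1 htmem with h1 | h1
        · obtain ⟨e0, he0, he1⟩ := mem_image.1 h1
          apply IH V a b x' (c - t) h'
          have h2 : (univ.filter fun e => 0 < x' e) ⊂ (univ.filter fun e => 0 < x e) := by
            rw [Finset.ssubset_iff_of_subset hsup]
            refine ⟨e0, by simp [hM.1 e0 he0], ?_⟩
            simp only [mem_filter, mem_univ, true_and, x', if_pos he0]
            rw [he1]; simp
          have h3 := card_lt_card h2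
          omega
        · obtain ⟨S, hS, hS2⟩ := mem_image.1 h1
          simp only [mem_filter, mem_univ, true_and] at hS
          refine tight_case N (fun W _ _ a' b' x' c' => IH W a' b' x' c') h' ?_ hS.1 ?_ ?_ ?_
          · have := card_le_card hsup
            omega
          · intro h4
            rw [card_eq_one] at h4
            obtain ⟨v, rfl⟩ := h4
            have := hS.2
            rw [hM.2 v] at this; omega
          · intro h4
            rw [card_eq_one] at h4
            obtain ⟨v, hv⟩ := h4
            have := hS.2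
            rw [← cut_compl, hv, hM.2 v] at this; omega
          · rw [hx'sum]
            have h5 : rt S = t := hS2
            simp only [rt] at h5
            rw [div_eq_iff (hcast S hS.2).ne'] at h5
            linarith
      obtain ⟨M', hM', hM'w⟩ := key w
      rw [hx'w] at hM'w
      have hM'' : PM a b x M' := ⟨fun e he => lt_of_lt_of_le (hM'.1 e he) (hx'le e), hM'.2⟩
      rcases le_total (∑ e ∈ M', w e) (∑ e ∈ M, w e) with h1 | h1
      · exact ⟨M', hM'', by nlinarith⟩
      · refine ⟨M, hM, ?_⟩
        have : 0 ≤ (c - t) * (∑ e ∈ M', w e - ∑ e ∈ M, w e) :=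
          mul_nonneg (by linarith) (by linarith)
        nlinarith

/-- Edmonds' theorem, final form. -/
theorem edmonds {a b : E → V} {x : E → ℝ} {c : ℝ} (h : Good a b x c) : Stm a b x c :=
  stm_all _ V a b x c h (Nat.lt_succ_self _)

end Pool.Agent.Lib.MP_d47134_co
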