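import Pool.Agent.Lib.MP_d47134_co.Edmonds

/-!
# Splitting off two edges, preserving the odd edge-connectivity
-/

set_option autoImplicit false
set_option linter.unusedSectionVars false

namespace Pool.Agent.Lib.MP_d47134_co

open Finset

variable {V E : Type} [Fintype V] [DecidableEq V] [Fintype E] [DecidableEq E]

lemma par (a b : E → V) (M : Finset E) (X : Finset V) :
    (((cut a b M X).card : ℕ) : ZMod 2) =
      ∑ e ∈ M, ((if a e ∈ X then 1 else 0) + (if b e ∈ X then 1 else 0) : ZMod 2) := by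
  rw [cut, card_filter]
  push_cast
  refine sum_congr rfl fun e _ => ?_
  by_cases h1 : a e ∈ X <;> by_cases h2 : b e ∈ X <;> simp [h1, h2]
  decide

lemma cast_odd {n : ℕ} : Odd n ↔ (n : ZMod 2) = 1 := by
  constructor
  · rintro ⟨k, rfl⟩
    push_cast
    have : (2 : ZMod 2) = 0 := by decide
    rw [this]; ring
  · intro h
    by_contra h4
    rw [Nat.not_odd_iff_even] at h4
    obtain ⟨k, rfl⟩ := h4
    push_cast at h
    have : ((k : ZMod 2)) + k = 0 := by
      have : (2 : ZMod 2) = 0 := by decide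
      rw [← two_mul, this, zero_mul]
    rw [this] at h
    exact absurd h (by decide)

/-- Odd cuts have size at least `r`. -/
def OC (r : ℕ) (a b : E → V) : Prop :=
  ∀ X : Finset V, Odd (cut a b univ X).card → r ≤ (cut a b univ X).card

/-- The number of vertices of odd degree in `X`. -/
def ov (a b : E → V) (X : Finset V) : ℕ := (X.filter fun v => Odd (cut a b univ {v}).card).card

/-- `J` is a parity join of small weight whose odd cuts have many odd vertices on both sides. -/
structure Sol (r : ℕ) (a b : E → V) (w : E → ℝ) (J : Finset E) : Prop where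
  nl : ∀ e ∈ J, a e ≠ b e
  join : ∀ X, (((cut a b J X).card : ℕ) : ZMod 2) = ((cut a b univ X).card : ZMod 2)
  nocut : ∀ X, Odd (cut a b univ X).card → cut a b univ X ⊆ J →
    r + 2 ≤ ov a b X ∧ r + 2 ≤ ov a b Xᶜ
  wt : r * ∑ e ∈ J, w e ≤ ∑ e, w e

section split

variable (a b : E → V) (e f : E) (v x y : V)

/-- first ends after splitting off `e = vx` and `f = vy` -/
def sa : E → V := Function.update (Function.update a e x) f v
/-- second ends after splitting off `e = vx` and `f = vy` -/
def sb : E → V := Function.update (Function.update b e y) f v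

variable {a b e f v x y}

lemma sa_f : sa a e f v x f = v := by simp [sa]
lemma sb_f : sb b e f v y f = v := by simp [sb]
lemma sa_e (h : e ≠ f) : sa a e f v x e = x := by simp [sa, h]
lemma sb_e (h : e ≠ f) : sb b e f v y e = y := by simp [sb, h]
lemma sa_o {g : E} (h1 : g ≠ e) (h2 : g ≠ f) : sa a e f v x g = a g := by simp [sa, h1, h2]
lemma sb_o {g : E} (h1 : g ≠ e) (h2 : g ≠ f) : sb b e f v y g = b g := by simp [sb, h1, h2]

lemma ends_iff {g : E} {u z : V} (h : s(a g, b g) = s(u, z)) (X : Finset V) :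
    (¬ (a g ∈ X ↔ b g ∈ X)) ↔ ¬ (u ∈ X ↔ z ∈ X) := by
  rw [Sym2.eq_iff] at h
  rcases h with ⟨h1, h2⟩ | ⟨h1, h2⟩ <;> rw [h1, h2]
  tauto

lemma ends_sum {g : E} {u z : V} (h : s(a g, b g) = s(u, z)) (X : Finset V) :
    ((if a g ∈ X then 1 else 0) + (if b g ∈ X then 1 else 0) : ZMod 2) =
      (if u ∈ X then 1 else 0) + (if z ∈ X then 1 else 0) := by
  rw [Sym2.eq_iff] at h
  rcases h with ⟨h1, h2⟩ | ⟨h1, h2⟩ <;> rw [h1, h2]
  rw [add_comm]

/-- lifting a set of edges of the split graph -/
def lift (e f : E) (J : Finset E) : Finset E := if e ∈ J then insert f J else J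

lemma sum_lift {A : Type} [AddCommMonoid A] {J : Finset E} (hf : f ∉ J) (g g' : E → A)
    (h1 : g e + g f = g' e) (h2 : ∀ i, i ≠ e → i ≠ f → g i = g' i) (hef : e ≠ f) :
    ∑ i ∈ lift e f J, g i = ∑ i ∈ J, g' i := by
  unfold lift
  split_ifs with he
  · rw [sum_insert hf, ← add_sum_erase J g he, ← add_sum_erase J g' he, ← add_assoc,
      add_comm (g f), h1]
    congr 1
    refine sum_congr rfl fun i hi => h2 i (ne_of_mem_erase hi) ?_
    rintro rfl; exact hf (mem_of_mem_erase hi)
  · refine sum_congr rfl fun i hi => h2 i ?_ ?_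
    · rintro rfl; exact he hi
    · rintro rfl; exact hf hi

lemma two_term (g : E → ℕ) (hef : e ≠ f) :
    ∑ i, g i = g e + g f + ∑ i ∈ (univ.erase e).erase f, g i := by
  rw [← add_sum_erase univ g (mem_univ e), ← add_sum_erase (univ.erase e) g
    (mem_erase.2 ⟨hef.symm, mem_univ f⟩), add_assoc]

lemma par_lift (hef : e ≠ f) (he : s(a e, b e) = s(v, x)) (hf : s(a f, b f) = s(v, y))
    {J : Finset E} (hfJ : f ∉ J) (X : Finset V) :
    (((cut a b (lift e f J) X).card : ℕ) : ZMod 2) =
      ((cut (sa a e f v x) (sb b e f v y) J X).card : ZMod 2) := by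
  rw [par, par]
  refine sum_lift hfJ _ _ ?_ ?_ hef
  · rw [ends_sum he, ends_sum hf, sa_e hef, sb_e hef]
    have h2 : (2 : ZMod 2) = 0 := by decide
    linear_combination (if v ∈ X then 1 else 0 : ZMod 2) * h2
  · intro i h1 h2
    rw [sa_o h1 h2, sb_o h1 h2]

lemma par_univ (hef : e ≠ f) (he : s(a e, b e) = s(v, x)) (hf : s(a f, b f) = s(v, y))
    (X : Finset V) :
    (((cut a b univ X).card : ℕ) : ZMod 2) =
      ((cut (sa a e f v x) (sb b e f v y) univ X).card : ZMod 2) := by
  have h1 := par_lift hef he hf (J := univ.erase f) (by simp) X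
  have h2 : lift e f (univ.erase f) = univ := by
    unfold lift
    rw [if_pos (by simp [hef])]
    simp
  rw [h2] at h1
  rw [h1]
  congr 2
  ext i
  simp only [mem_cut, mem_erase, mem_univ, and_true, true_and]
  refine ⟨fun h => h.2, fun h => ⟨?_, h⟩⟩
  rintro rfl
  rw [sa_f, sb_f] at h
  exact h Iff.rfl

lemma ov_split (hef : e ≠ f) (he : s(a e, b e) = s(v, x)) (hf : s(a f, b f) = s(v, y))
    (X : Finset V) : ov (sa a e f v x) (sb b e f v y) X = ov a b X := by
  unfold ov
  congr 2
  ext u
  rw [cast_odd, cast_odd, par_univ hef he hf]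

lemma card_split (hef : e ≠ f) (he : s(a e, b e) = s(v, x)) (hf : s(a f, b f) = s(v, y))
    (X : Finset V) : (cut a b univ X).card + (if (x ∈ X ↔ y ∈ X) then 0 else 1) =
      (cut (sa a e f v x) (sb b e f v y) univ X).card +
        ((if (v ∈ X ↔ x ∈ X) then 0 else 1) + (if (v ∈ X ↔ y ∈ X) then 0 else 1)) := by
  have h1 : ∀ a' b' : E → V, (cut a' b' univ X).card =
      ∑ g, if (a' g ∈ X ↔ b' g ∈ X) then 0 else 1 := by
    intro a' b'
    rw [cut, card_filter]
    exact sum_congr rfl fun g _ => by split_ifs <;> rfl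
  rw [h1, h1, two_term _ hef, two_term (fun g => if (sa a e f v x g ∈ X ↔ sb b e f v y g ∈ X)
    then 0 else 1) hef]
  have h2 : ∑ i ∈ (univ.erase e).erase f, (if (sa a e f v x i ∈ X ↔ sb b e f v y i ∈ X)
      then 0 else 1) = ∑ i ∈ (univ.erase e).erase f, if (a i ∈ X ↔ b i ∈ X) then 0 else 1 := by
    refine sum_congr rfl fun i hi => ?_
    rw [sa_o (ne_of_mem_erase (mem_of_mem_erase hi)) (ne_of_mem_erase hi),
      sb_o (ne_of_mem_erase (mem_of_mem_erase hi)) (ne_of_mem_erase hi)]
  rw [h2, sa_e hef, sb_e hef, sa_f, sb_f, if_pos (Iff.rfl : (v ∈ X ↔ v ∈ X))]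
  have h3 : (if (a e ∈ X ↔ b e ∈ X) then 0 else 1) = if (v ∈ X ↔ x ∈ X) then 0 else 1 := by
    have := ends_iff he X
    split_ifs <;> tauto
  have h4 : (if (a f ∈ X ↔ b f ∈ X) then 0 else 1) = if (v ∈ X ↔ y ∈ X) then 0 else 1 := by
    have := ends_iff hf X
    split_ifs <;> tauto
  rw [h3, h4]
  ring

end split

/-- pointwise count of a cut -/
lemma card_cut (a b : E → V) (X : Finset V) :
    (cut a b univ X).card = ∑ g, if (a g ∈ X ↔ b g ∈ X) then 0 else 1 := by
  rw [cut, card_filter]
  exact sum_congr rfl fun g _ => by split_ifs <;> rfl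

lemma submod (a b : E → V) (X Y : Finset V) :
    (cut a b univ (X ∩ Y)).card + (cut a b univ (X ∪ Y)).card ≤
      (cut a b univ X).card + (cut a b univ Y).card := by
  simp only [card_cut]
  rw [← sum_add_distrib, ← sum_add_distrib]
  refine sum_le_sum fun g _ => ?_
  simp only [mem_inter, mem_union]
  by_cases h1 : a g ∈ X <;> by_cases h2 : a g ∈ Y <;> by_cases h3 : b g ∈ X <;>
    by_cases h4 : b g ∈ Y <;> simp [h1, h2, h3, h4]

lemma submod2 (a b : E → V) (X Y : Finset V) {e : E} {v x : V} (he : s(a e, b e) = s(v, x))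
    (hvX : v ∉ X) (hvY : v ∉ Y) (hxX : x ∈ X) (hxY : x ∈ Y) :
    (cut a b univ (X \ Y)).card + (cut a b univ (Y \ X)).card + 2 ≤
      (cut a b univ X).card + (cut a b univ Y).card := by
  simp only [card_cut]
  rw [← add_sum_erase univ (fun g => if (a g ∈ X \ Y ↔ b g ∈ X \ Y) then 0 else 1) (mem_univ e),
    ← add_sum_erase univ (fun g => if (a g ∈ Y \ X ↔ b g ∈ Y \ X) then 0 else 1) (mem_univ e),
    ← add_sum_erase univ (fun g => if (a g ∈ X ↔ b g ∈ X) then 0 else 1) (mem_univ e),
    ← add_sum_erase univ (fun g => if (a g ∈ Y ↔ b g ∈ Y) then 0 else 1) (mem_univ e)]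
  have h1 : ∑ g ∈ univ.erase e, (if (a g ∈ X \ Y ↔ b g ∈ X \ Y) then 0 else 1) +
      ∑ g ∈ univ.erase e, (if (a g ∈ Y \ X ↔ b g ∈ Y \ X) then 0 else 1) ≤
      ∑ g ∈ univ.erase e, (if (a g ∈ X ↔ b g ∈ X) then 0 else 1) +
      ∑ g ∈ univ.erase e, (if (a g ∈ Y ↔ b g ∈ Y) then 0 else 1) := by
    rw [← sum_add_distrib, ← sum_add_distrib]
    refine sum_le_sum fun g _ => ?_
    simp only [mem_sdiff]
    by_cases h1 : a g ∈ X <;> by_cases h2 : a g ∈ Y <;> by_cases h3 : b g ∈ X <;>
      by_cases h4 : b g ∈ Y <;> simp [h1, h2, h3, h4]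
  rw [Sym2.eq_iff] at he
  simp only [mem_sdiff] at h1 ⊢
  rcases he with ⟨h2, h3⟩ | ⟨h2, h3⟩ <;> simp only [h2, h3, hvX, hvY, hxX, hxY] <;>
    simp <;> omega

/-- parity of the cuts of `X ∩ Y`, `X ∪ Y`, or of the two differences -/
lemma par4 (a b : E → V) (X Y : Finset V) :
    (((cut a b univ (X ∩ Y)).card : ℕ) : ZMod 2) + (cut a b univ (X ∪ Y)).card =
      (cut a b univ X).card + (cut a b univ Y).card := by
  simp only [par]
  rw [← sum_add_distrib, ← sum_add_distrib]
  refine sum_congr rfl fun g _ => ?_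
  simp only [mem_inter, mem_union]
  by_cases h1 : a g ∈ X <;> by_cases h2 : a g ∈ Y <;> by_cases h3 : b g ∈ X <;>
    by_cases h4 : b g ∈ Y <;> simp [h1, h2, h3, h4] <;> ring

lemma par_sdiff (a b : E → V) (X Y : Finset V) :
    (((cut a b univ (X \ Y)).card : ℕ) : ZMod 2) =
      (cut a b univ X).card - (cut a b univ (X ∩ Y)).card := by
  simp only [par]
  rw [← sum_sub_distrib]
  refine sum_congr rfl fun g _ => ?_
  simp only [mem_inter, mem_sdiff]
  by_cases h1 : a g ∈ X <;> by_cases h2 : a g ∈ Y <;> by_cases h3 : b g ∈ X <;>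
    by_cases h4 : b g ∈ Y <;> simp [h1, h2, h3, h4]

/-- uncrossing of tight odd cuts -/
lemma uncross {r : ℕ} (hr : Odd r) {a b : E → V} (h : OC r a b) {X Y : Finset V} {e : E}
    {v x : V} (he : s(a e, b e) = s(v, x)) (hvX : v ∉ X) (hvY : v ∉ Y) (hxX : x ∈ X)
    (hxY : x ∈ Y) (hX : (cut a b univ X).card = r) (hY : (cut a b univ Y).card = r) :
    (cut a b univ (X ∪ Y)).card = r := by
  have h1 := par4 a b X Y
  have hr1 := cast_odd.1 hr
  rw [hX, hY, hr1] at h1
  have h11 : (1 : ZMod 2) + 1 = 0 := by decide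
  rw [h11] at h1
  by_cases h2 : Odd (cut a b univ (X ∩ Y)).card
  · have h3 : Odd (cut a b univ (X ∪ Y)).card := by
      rw [cast_odd] at h2 ⊢
      rw [h2] at h1
      have : ((cut a b univ (X ∪ Y)).card : ZMod 2) = 0 - 1 := by rw [← h1]; ring
      rw [this]; decide
    have h4 := h _ h2
    have h5 := h _ h3
    have h6 := submod a b X Y
    omega
  · exfalso
    have h3 : ((cut a b univ (X ∩ Y)).card : ZMod 2) = 0 := by
      rw [Nat.not_odd_iff_even] at h2
      exact (ZMod.natCast_eq_zero_iff_even).2 h2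
    have h4 : Odd (cut a b univ (X \ Y)).card := by
      rw [cast_odd, par_sdiff, hX, h3, hr1, sub_zero]
    have h5 : Odd (cut a b univ (Y \ X)).card := by
      rw [cast_odd, par_sdiff, hY, inter_comm, h3, hr1, sub_zero]
    have h6 := submod2 a b X Y he hvX hvY hxX hxY
    have h7 := h _ h4
    have h8 := h _ h5
    omega

/-- **Splitting lemma.** At a vertex whose degree is neither `0` nor `r` two edges can be split
off. -/
theorem exists_pair {r : ℕ} (hr : Odd r) (hr3 : 3 ≤ r) {a b : E → V} (h : OC r a b) {v : V}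
    (h0 : (cut a b univ {v}).card ≠ 0) (h1 : (cut a b univ {v}).card ≠ r) :
    ∃ e f x y, e ≠ f ∧ s(a e, b e) = s(v, x) ∧ s(a f, b f) = s(v, y) ∧ v ≠ x ∧ v ≠ y ∧
      ∀ Z, (cut a b univ Z).card = r → v ∉ Z → x ∈ Z → y ∉ Z := by
  classical
  have hother : ∀ g ∈ cut a b univ {v}, ∃ z, s(a g, b g) = s(v, z) ∧ v ≠ z := by
    intro g hg
    simp only [mem_cut, mem_univ, true_and, mem_singleton] at hg
    by_cases h2 : a g = v
    · refine ⟨b g, by rw [h2], ?_⟩
      rintro h3
      exact hg ⟨fun _ => h3.symm, fun _ => h2⟩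
    · have h3 : b g = v := by
        by_contra h3; exact hg ⟨fun h => absurd h h2, fun h => absurd h h3⟩
      exact ⟨a g, by rw [h3, Sym2.eq_swap], fun h => h2 h.symm⟩
  obtain ⟨e, he⟩ : (cut a b univ {v}).Nonempty := by
    rw [← card_pos]; omega
  obtain ⟨x, hx, hvx⟩ := hother e he
  by_contra hcon
  push Not at hcon
  have hblock : ∀ f ∈ cut a b univ {v}, f ≠ e → ∀ y, s(a f, b f) = s(v, y) → v ≠ y →
      ∃ Z, (cut a b univ Z).card = r ∧ v ∉ Z ∧ x ∈ Z ∧ y ∈ Z := by
    intro f hf hfe y hy hvy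
    exact hcon e f x y (Ne.symm hfe) hx hy hvx hvy
  have h2 : 2 ≤ (cut a b univ {v}).card := by
    by_contra h3
    have h4 : (cut a b univ {v}).card = 1 := by omega
    have h5 := h {v} (by rw [h4]; exact odd_one)
    omega
  obtain ⟨f0, hf0, hfe0⟩ : ∃ f ∈ cut a b univ {v}, f ≠ e := by
    by_contra h3
    push Not at h3
    have : (cut a b univ {v}).card ≤ 1 := by
      rw [card_le_one]
      intro g hg g' hg'
      rw [h3 g hg, h3 g' hg']
    omega
  obtain ⟨y0, hy0, hvy0⟩ := hother f0 hf0
  obtain ⟨Z0, hZ0⟩ := hblock f0 hf0 hfe0 y0 hy0 hvy0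
  obtain ⟨Z, hZ, hZm⟩ := exists_max_image
    (univ.filter fun Z : Finset V => (cut a b univ Z).card = r ∧ v ∉ Z ∧ x ∈ Z) card
    ⟨Z0, by simp only [mem_filter, mem_univ, true_and]; exact ⟨hZ0.1, hZ0.2.1, hZ0.2.2.1⟩⟩
  simp only [mem_filter, mem_univ, true_and] at hZ hZm
  obtain ⟨hZr, hvZ, hxZ⟩ := hZ
  have hall : ∀ f ∈ cut a b univ {v}, ∀ y, s(a f, b f) = s(v, y) → v ≠ y → y ∈ Z := by
    intro f hf y hy hvy
    by_cases hfe : f = e
    · rw [hfe, hx, Sym2.eq_iff] at hy
      rcases hy with ⟨_, h3⟩ | ⟨h3, _⟩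
      · rw [← h3]; exact hxZ
      · exact absurd h3 hvy
    · obtain ⟨Y, hYr, hvY, hxY, hyY⟩ := hblock f hf hfe y hy hvy
      have h3 := uncross hr h hx hvZ hvY hxZ hxY hZr hYr
      have h4 := hZm (Z ∪ Y) ⟨h3, by simp [hvZ, hvY], by simp [hxZ]⟩
      have h5 : Z = Z ∪ Y := eq_of_subset_of_card_le subset_union_left h4
      rw [h5]
      exact mem_union_right _ hyY
  have hcard : (cut a b univ (insert v Z)).card + (cut a b univ {v}).card = r := by
    rw [← hZr, ← card_union_of_disjoint]
    · congr 1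
      ext g
      simp only [mem_union, mem_cut, mem_univ, true_and, mem_insert, mem_singleton]
      constructor
      · rintro (hg | hg)
        · by_cases h3 : a g = v
          · by_cases h4 : b g = v
            · exact absurd ⟨fun _ => Or.inl h4, fun _ => Or.inl h3⟩ hg
            · have h5 := hall g (mem_cut.2 ⟨mem_univ _, by simp [h3, h4]⟩) (b g) (by rw [h3])
                (Ne.symm h4)
              exact absurd ⟨fun _ => Or.inr h5, fun _ => Or.inl h3⟩ hg
          · by_cases h4 : b g = v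
            · have h5 := hall g (mem_cut.2 ⟨mem_univ _, by simp [h3, h4]⟩) (a g)
                (by rw [h4, Sym2.eq_swap]) (Ne.symm h3)
              exact absurd ⟨fun _ => Or.inl h4, fun _ => Or.inr h5⟩ hg
            · simpa [h3, h4] using hg
        · have hgc : g ∈ cut a b univ {v} := mem_cut.2 ⟨mem_univ _, by simpa using hg⟩
          obtain ⟨z, hz, hvz⟩ := hother g hgc
          have h5 := hall g hgc z hz hvz
          have := ends_iff hz Z
          tauto
      · intro hg
        by_cases h3 : a g = v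
        · by_cases h4 : b g = v
          · rw [h3, h4] at hg; exact absurd Iff.rfl hg
          · right; simp [h3, h4]
        · by_cases h4 : b g = v
          · right; simp [h3, h4]
          · left; simpa [h3, h4] using hg
    · rw [Finset.disjoint_left]
      intro g hg hg'
      obtain ⟨z, hz, hvz⟩ := hother g hg'
      have h5 := hall g hg' z hz hvz
      rw [mem_cut, ends_iff hz] at hg
      exact hg.2 ⟨fun _ => mem_insert_of_mem h5, fun _ => mem_insert_self _ _⟩
  rcases Nat.even_or_odd (cut a b univ {v}).card with h3 | h3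
  · have h4 : Odd (cut a b univ (insert v Z)).card := by
      by_contra h5
      rw [Nat.not_odd_iff_even] at h5
      have := h5.add h3
      rw [hcard] at this
      exact (Nat.not_even_iff_odd.2 hr) this
    have := h _ h4
    omega
  · have := h _ h3
    omega

/-- One splitting step. -/
lemma Sol.of_split {r : ℕ} {a b : E → V} {w : E → ℝ} {e f : E} {v x y : V} (hef : e ≠ f)
    (he : s(a e, b e) = s(v, x)) (hf : s(a f, b f) = s(v, y)) (hvx : v ≠ x) (hvy : v ≠ y)
    {J : Finset E}
    (hJ : Sol r (sa a e f v x) (sb b e f v y)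
      (Function.update (Function.update w e (w e + w f)) f 0) J) :
    Sol r a b w (lift e f J) := by
  classical
  have hfJ : f ∉ J := fun h => hJ.nl f h (by rw [sa_f, sb_f])
  have hfe : f ≠ e := hef.symm
  refine ⟨?_, ?_, ?_, ?_⟩
  · intro g hg
    have hl : ∀ {g u z}, s(a g, b g) = s(u, z) → u ≠ z → a g ≠ b g := by
      intro g u z h1 h2 h3
      rw [h3, Sym2.eq_iff] at h1
      rcases h1 with ⟨h4, h5⟩ | ⟨h4, h5⟩
      · exact h2 (h4.symm.trans h5)
      · exact h2 (h5.symm.trans h4)
    by_cases h1 : g = e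
    · subst h1; exact hl he hvx
    · by_cases h2 : g = f
      · subst h2; exact hl hf hvy
      · have h3 : g ∈ J := by
          unfold lift at hg
          split_ifs at hg
          · exact (mem_insert.1 hg).resolve_left h2
          · exact hg
        have := hJ.nl g h3
        rwa [sa_o h1 h2, sb_o h1 h2] at this
  · intro X
    rw [par_lift hef he hf hfJ, par_univ hef he hf]
    exact hJ.join X
  · intro X hX hcut
    have hX' : Odd (cut (sa a e f v x) (sb b e f v y) univ X).card := by
      rw [cast_odd] at hX ⊢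
      rw [← par_univ hef he hf]; exact hX
    have hov := hJ.nocut X hX'
    rw [ov_split hef he hf, ov_split hef he hf] at hov
    apply hov
    intro g hg
    rw [mem_cut] at hg
    by_cases h2 : g = f
    · subst h2
      rw [sa_f, sb_f] at hg
      exact absurd Iff.rfl hg.2
    · by_cases h1 : g = e
      · subst h1
        rw [sa_e hef, sb_e hef] at hg
        by_contra h3
        have h4 : lift g f J = J := by unfold lift; rw [if_neg h3]
        rw [h4] at hcut
        have h5 : g ∉ cut a b univ X := fun h => h3 (hcut h)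
        have h6 : f ∉ cut a b univ X := fun h => hfJ (hcut h)
        rw [mem_cut, ends_iff he] at h5
        rw [mem_cut, ends_iff hf] at h6
        simp only [mem_univ, true_and, not_not] at h5 h6
        exact hg.2 (h5.symm.trans h6)
      · rw [sa_o h1 h2, sb_o h1 h2] at hg
        have h3 := hcut (mem_cut.2 hg)
        unfold lift at h3
        split_ifs at h3
        · exact (mem_insert.1 h3).resolve_left h2
        · exact h3
  · have h1 := hJ.wt
    rw [← sum_lift (e := e) (f := f) hfJ w _ (by simp [hef]) (fun i h1 h2 => by simp [h1, h2])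
      hef] at h1
    have h2 : ∑ i, Function.update (Function.update w e (w e + w f)) f 0 i = ∑ i, w i := by
      have h3 := sum_lift (e := e) (f := f) (J := univ.erase f) (by simp) w
        (Function.update (Function.update w e (w e + w f)) f 0) (by simp [hef])
        (fun i h1 h2 => by simp [h1, h2]) hef
      have h4 : lift e f (univ.erase f) = univ := by
        unfold lift
        rw [if_pos (by simp [hef])]
        simp
      rw [h4] at h3
      rw [h3, ← add_sum_erase univ _ (mem_univ f)]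
      simp
    rw [h2] at h1
    exact h1

/-- The splitting preserves the cut condition. -/
lemma OC.split {r : ℕ} (hr : Odd r) {a b : E → V} (h : OC r a b) {e f : E} {v x y : V}
    (hef : e ≠ f) (he : s(a e, b e) = s(v, x)) (hf : s(a f, b f) = s(v, y))
    (hZ : ∀ Z, (cut a b univ Z).card = r → v ∉ Z → x ∈ Z → y ∉ Z) :
    OC r (sa a e f v x) (sb b e f v y) := by
  intro X hX
  have hX' : Odd (cut a b univ X).card := by
    rw [cast_odd] at hX ⊢
    rw [par_univ hef he hf]; exact hX
  have h1 := h X hX'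
  have h2 := card_split hef he hf X
  by_contra hcon
  push Not at hcon
  have h3 : (cut a b univ X).card = r := by
    obtain ⟨i, hi⟩ := hX
    obtain ⟨j, hj⟩ := hX'
    obtain ⟨k, hk⟩ := hr
    split_ifs at h2 <;> omega
  have h4 : (cut a b univ Xᶜ).card = r := by rw [cut_compl]; exact h3
  have h5 := hZ X h3
  have h6 := hZ Xᶜ h4
  simp only [mem_compl] at h6
  split_ifs at h2 <;> first | omega | tauto

end Pool.Agent.Lib.MP_d47134_co
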